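import Pool.Agent.Helper97.QO.Elem

/-!
# Project AUT (S00834), block A: the group `OO` of units of `MM` is perfect
-/

set_option autoImplicit false

namespace QO97

open QA70
open scoped commutatorElement

/-- the unit `1 + N` for `N ^ 2 = 0` -/
def uni (N : MM) (h : N * N = 0) : OO where
  val := 1 + N
  inv := 1 + N
  val_inv := by
    rw [mul_add, mul_one, add_mul, one_mul, h, add_zero, add_assoc, two_MM, add_zero]
  inv_val := by
    rw [mul_add, mul_one, add_mul, one_mul, h, add_zero, add_assoc, two_MM, add_zero]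

theorem uni_val (N : MM) (h : N * N = 0) : (uni N h : MM) = 1 + N := rfl
theorem uni_inv_val (N : MM) (h : N * N = 0) : ((uni N h)⁻¹ : OO).val = 1 + N := rfl

/-- commutator of a unit and `1 + N` -/
theorem uni_mem (N N' : MM) (hN : N * N = 0) (hN' : N' * N' = 0) (t : OO)
    (h0 : t.val * N * t⁻¹.val * N = 0) (h1 : t.val * N * t⁻¹.val + N = N') :
    uni N' hN' ∈ commutator OO := by
  have h : uni N' hN' = ⁅t, uni N hN⁆ := by
    apply Units.ext
    rw [commutatorElement_def, Units.val_mul, Units.val_mul, Units.val_mul, uni_val, uni_val,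
      uni_inv_val]
    have e : t.val * (1 + N) * t⁻¹.val = 1 + t.val * N * t⁻¹.val := by
      rw [mul_add, mul_one, add_mul, Units.mul_inv]
    rw [mul_add, mul_one, e, add_mul, one_mul, h0, add_zero, ← h1]
    abel
  rw [h]
  exact Subgroup.commutator_mem_commutator (Subgroup.mem_top _) (Subgroup.mem_top _)

/-- coordinates of `V` -/
def pj (i : Fin 4) : V →ₗ[k] FM.K := FM.proj (ι := Fin 4) (A := FM.K) i

theorem V_ext {x y : V} (h : ∀ i, pj i x = pj i y) : x = y :=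
  FM.pow_ext (ι := Fin 4) (A := FM.K) h

/-- an element of order three of `GL(V)` -/
def om : EV := FM.pi (ι := Fin 4) (A := FM.K) (C := V)
  ![pj 1, pj 0 + pj 1, pj 3, pj 2 + pj 3]

theorem pj_om0 (x : V) : pj 0 (om x) = pj 1 x := rfl
theorem pj_om1 (x : V) : pj 1 (om x) = pj 0 x + pj 1 x := rfl
theorem pj_om2 (x : V) : pj 2 (om x) = pj 3 x := rfl
theorem pj_om3 (x : V) : pj 3 (om x) = pj 2 x + pj 3 x := rfl

theorem om_sq : om * om = om + 1 := by
  refine LinearMap.ext fun x => V_ext fun i => ?_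
  show pj i (om (om x)) = pj i (om x + x)
  rw [map_add]
  fin_cases i
  · show pj 0 (om (om x)) = pj 0 (om x) + pj 0 x
    rw [pj_om0, pj_om0, pj_om1, add_comm]
  · show pj 1 (om (om x)) = pj 1 (om x) + pj 1 x
    rw [pj_om1, pj_om0, pj_om1, add_assoc, two_vec, add_zero, ← add_assoc, add_comm (pj 1 x),
      add_assoc, two_vec, add_zero]
  · show pj 2 (om (om x)) = pj 2 (om x) + pj 2 x
    rw [pj_om2, pj_om2, pj_om3, add_comm]
  · show pj 3 (om (om x)) = pj 3 (om x) + pj 3 x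
    rw [pj_om3, pj_om2, pj_om3, add_assoc, two_vec, add_zero, ← add_assoc, add_comm (pj 3 x),
      add_assoc, two_vec, add_zero]

theorem two_EV (x : EV) : x + x = 0 := two_lin (A := V) (B := V) x

theorem om_inv1 : om * (om + 1) = 1 := by
  rw [mul_add, mul_one, om_sq, add_assoc, add_comm 1 om, ← add_assoc, two_EV, zero_add]

theorem om_inv2 : (om + 1) * om = 1 := by
  rw [add_mul, one_mul, om_sq, add_assoc, add_comm 1 om, ← add_assoc, two_EV, zero_add]

/-- `om` as a unit -/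
def omU : EVˣ := ⟨om, om + 1, om_inv1, om_inv2⟩

/-- diagonal units -/
def levU (s1 s2 s3 s4 : EVˣ) : OO where
  val := lev s1 s2 s3 s4
  inv := lev s1⁻¹.val s2⁻¹.val s3⁻¹.val s4⁻¹.val
  val_inv := by rw [lev_mul, Units.mul_inv, Units.mul_inv, Units.mul_inv, Units.mul_inv, lev_one]
  inv_val := by rw [lev_mul, Units.inv_mul, Units.inv_mul, Units.inv_mul, Units.inv_mul, lev_one]

theorem levU_val (s1 s2 s3 s4 : EVˣ) : (levU s1 s2 s3 s4).val = lev s1 s2 s3 s4 := rfl
theorem levU_inv_val (s1 s2 s3 s4 : EVˣ) :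
    (levU s1 s2 s3 s4)⁻¹.val = lev s1⁻¹.val s2⁻¹.val s3⁻¹.val s4⁻¹.val := rfl

theorem n2_sq {h h' : V →ₗ[k] M2} (e : ∀ v, FM.fst (h' v) = 0) : n2 h * n2 h' = 0 := by
  conv_lhs => rw [n2.eq_1 h']
  rw [mul_gen, zero_gen]
  refine gen_congr rfl rfl ?_ ?_ ?_
  · refine LinearMap.ext fun v => ?_
    show (n2 h).f2 (h' v) = 0
    rw [n2_f2, e, map_zero]
  · exact LinearMap.comp_zero _
  · exact LinearMap.comp_zero _

theorem n3_sq {h h' : V →ₗ[k] M3} (e : ∀ v, FM.fst (h' v) = 0) : n3 h * n3 h' = 0 := by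
  conv_lhs => rw [n3.eq_1 h']
  rw [mul_gen, zero_gen]
  refine gen_congr rfl rfl ?_ ?_ ?_
  · exact LinearMap.comp_zero _
  · exact LinearMap.comp_zero _
  · refine LinearMap.ext fun v => ?_
    show (n3 h).f3 (h' v) = 0
    rw [n3_f3, e, map_zero]

theorem n0_sq {h h' : FM.K →ₗ[k] M0} (e : ∀ v, FM.fst (h' v) = 0) : n0 h * n0 h' = 0 := by
  conv_lhs => rw [n0.eq_1 h']
  rw [mul_gen, zero_gen]
  refine gen_congr rfl rfl ?_ ?_ ?_
  · exact LinearMap.comp_zero _
  · refine LinearMap.ext fun v => ?_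
    show (n0 h).f0 (h' v) = 0
    rw [n0_f0, e, map_zero]
  · exact LinearMap.comp_zero _

theorem x2_zero : (x2 0 0 0 : M2 →ₗ[k] M2) = 0 := by
  refine M2_hom_ext ?_ ?_ ?_ <;> intros <;> rfl

theorem n2_mul_lev (h : V →ₗ[k] M2) (s1 s2 s3 s4 : EV) :
    n2 h * lev s1 s2 s3 s4 = n2 (h ∘ₗ s2) := by
  rw [lev, mul_gen]
  refine gen_congr (LinearMap.zero_comp _) (LinearMap.zero_comp _) ?_ ?_ ?_
  · refine LinearMap.ext fun v => ?_
    exact gen_v2 0 0 h 0 0 _
  · refine LinearMap.ext fun c => ?_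
    exact gen_v0 0 0 h 0 0 _
  · refine LinearMap.ext fun v => ?_
    exact gen_v3 0 0 h 0 0 _

theorem n0_mul_lev (h : FM.K →ₗ[k] M0) (s1 s2 s3 s4 : EV) :
    n0 h * lev s1 s2 s3 s4 = n0 h := by
  rw [lev, mul_gen]
  refine gen_congr (LinearMap.zero_comp _) (LinearMap.zero_comp _) ?_ ?_ ?_
  · refine LinearMap.ext fun v => ?_
    exact gen_v2 0 0 0 h 0 _
  · refine LinearMap.ext fun c => ?_
    exact gen_v0 0 0 0 h 0 _
  · refine LinearMap.ext fun v => ?_
    exact gen_v3 0 0 0 h 0 _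

theorem n3_mul_lev (h : V →ₗ[k] M3) (s1 s2 s3 s4 : EV) :
    n3 h * lev s1 s2 s3 s4 = n3 (h ∘ₗ s3) := by
  rw [lev, mul_gen]
  refine gen_congr (LinearMap.zero_comp _) (LinearMap.zero_comp _) ?_ ?_ ?_
  · refine LinearMap.ext fun v => ?_
    exact gen_v2 0 0 0 0 h _
  · refine LinearMap.ext fun c => ?_
    exact gen_v0 0 0 0 0 h _
  · refine LinearMap.ext fun v => ?_
    exact gen_v3 0 0 0 0 h _

theorem mul_n2 (γ : MM) (h : V →ₗ[k] M2) : γ * n2 h = n2 (γ.f2 ∘ₗ h) := by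
  rw [n2, mul_gen]
  exact gen_congr (LinearMap.comp_zero _) (LinearMap.comp_zero _) rfl (LinearMap.comp_zero _)
    (LinearMap.comp_zero _)

theorem mul_n0 (γ : MM) (h : FM.K →ₗ[k] M0) : γ * n0 h = n0 (γ.f0 ∘ₗ h) := by
  rw [n0, mul_gen]
  exact gen_congr (LinearMap.comp_zero _) (LinearMap.comp_zero _) (LinearMap.comp_zero _) rfl
    (LinearMap.comp_zero _)

theorem mul_n3 (γ : MM) (h : V →ₗ[k] M3) : γ * n3 h = n3 (γ.f3 ∘ₗ h) := by
  rw [n3, mul_gen]
  exact gen_congr (LinearMap.comp_zero _) (LinearMap.comp_zero _) (LinearMap.comp_zero _)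
    (LinearMap.comp_zero _) rfl

theorem n2_add (h h' : V →ₗ[k] M2) : n2 h + n2 h' = n2 (h + h') := by
  rw [n2, n2, gen_add]
  exact gen_congr (add_zero _) (add_zero _) rfl (add_zero _) (add_zero _)

theorem n0_add (h h' : FM.K →ₗ[k] M0) : n0 h + n0 h' = n0 (h + h') := by
  rw [n0, n0, gen_add]
  exact gen_congr (add_zero _) (add_zero _) (add_zero _) rfl (add_zero _)

theorem n3_add (h h' : V →ₗ[k] M3) : n3 h + n3 h' = n3 (h + h') := by
  rw [n3, n3, gen_add]
  exact gen_congr (add_zero _) (add_zero _) (add_zero _) (add_zero _) rfl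

theorem uni2_mem (h : V →ₗ[k] M2) (e : ∀ v, FM.fst (h v) = 0) :
    uni (n2 h) (n2_sq e) ∈ commutator OO := by
  have e' : ∀ v, FM.fst ((h ∘ₗ (om + 1)) v) = 0 := fun v => e _
  have a : (levU 1 omU 1 1).val * n2 (h ∘ₗ (om + 1)) * (levU 1 omU 1 1)⁻¹.val =
      n2 (((levU 1 omU 1 1).val.f2 ∘ₗ (h ∘ₗ (om + 1))) ∘ₗ (om + 1)) := by
    rw [levU_inv_val]
    exact (congrArg (· * lev _ _ _ _) (mul_n2 _ _)).trans (n2_mul_lev _ _ _ _ _)
  refine uni_mem (n2 (h ∘ₗ (om + 1))) (n2 h) (n2_sq e') (n2_sq e) (levU 1 omU 1 1) ?_ ?_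
  · rw [a]
    exact n2_sq e'
  · rw [a, n2_add]
    congr 1
    refine LinearMap.ext fun v => ?_
    have key : ∀ m : M2, FM.fst m = 0 → (levU 1 omU 1 1).val.f2 m = m := by
      intro m hm
      obtain ⟨a, x, rfl⟩ := FM.prod_cases m
      obtain ⟨b, c, rfl⟩ := FM.prod_cases x
      have ha : a = 0 := hm
      subst ha
      rw [levU_val]
      show (lev _ _ _ _).f2 (M2.mk 0 b c) = _
      rw [lev_f2, map_zero]
      rfl
    show (levU 1 omU 1 1).val.f2 (h ((om + 1) ((om + 1) v))) + h ((om + 1) v) = h v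
    rw [key _ (e _), ← map_add]
    congr 1
    have h2 : (om + 1 : EV) * (om + 1) + (om + 1) = 1 := by
      rw [mul_add, mul_one, om_inv2, add_assoc, two_EV, add_zero]
    exact LinearMap.congr_fun h2 v

theorem uni3_mem (h : V →ₗ[k] M3) (e : ∀ v, FM.fst (h v) = 0) :
    uni (n3 h) (n3_sq e) ∈ commutator OO := by
  have e' : ∀ v, FM.fst ((h ∘ₗ (om + 1)) v) = 0 := fun v => e _
  have a : (levU 1 1 omU 1).val * n3 (h ∘ₗ (om + 1)) * (levU 1 1 omU 1)⁻¹.val =
      n3 (((levU 1 1 omU 1).val.f3 ∘ₗ (h ∘ₗ (om + 1))) ∘ₗ (om + 1)) := by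
    rw [levU_inv_val]
    exact (congrArg (· * lev _ _ _ _) (mul_n3 _ _)).trans (n3_mul_lev _ _ _ _ _)
  refine uni_mem (n3 (h ∘ₗ (om + 1))) (n3 h) (n3_sq e') (n3_sq e) (levU 1 1 omU 1) ?_ ?_
  · rw [a]
    exact n3_sq e'
  · rw [a, n3_add]
    congr 1
    refine LinearMap.ext fun v => ?_
    have key : ∀ m : M3, FM.fst m = 0 → (levU 1 1 omU 1).val.f3 m = m := by
      intro m hm
      obtain ⟨a, x, rfl⟩ := FM.prod_cases m
      obtain ⟨b, y, rfl⟩ := FM.prod_cases x
      obtain ⟨c, d, rfl⟩ := FM.prod_cases y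
      have ha : a = 0 := hm
      subst ha
      rw [levU_val]
      show (lev _ _ _ _).f3 (M3.mk 0 b c d) = _
      rw [lev_f3, map_zero]
      have h2 : (lev 1 1 omU.val 1).f2 = LinearMap.id := by
        refine M2_hom_ext ?_ ?_ ?_
        · intro v
          show (lev 1 1 omU.val 1).f2 (M2.mk v 0 0) = M2.mk v 0 0
          rw [lev_f2, map_zero, map_zero]
          rfl
        · intro l v
          exact (lev 1 1 omU.val 1).hb l v
        · intro v
          exact (lev 1 1 omU.val 1).hr v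
      have h2' : (lev (1 : EVˣ).val (1 : EVˣ).val omU.val (1 : EVˣ).val).f2 = LinearMap.id := h2
      rw [h2']
      rfl
    show (levU 1 1 omU 1).val.f3 (h ((om + 1) ((om + 1) v))) + h ((om + 1) v) = h v
    rw [key _ (e _), ← map_add]
    congr 1
    have h2 : (om + 1 : EV) * (om + 1) + (om + 1) = 1 := by
      rw [mul_add, mul_one, om_inv2, add_assoc, two_EV, add_zero]
    exact LinearMap.congr_fun h2 v

theorem lev_om_rel (x : M0) (hx : FM.fst x = 0) :
    (lev om om om om).f0 ((lev om om om om).f0 x) + (lev om om om om).f0 x + x = 0 := by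
  have h1 : lev om om om om * lev om om om om + lev om om om om + 1 = gen 0 0 0 vM0 0 := by
    rw [lev_mul, om_sq, lev, lev, one_gen, gen_add, gen_add]
    have z : (om + 1 + om + 1 : EV) = 0 := by
      rw [add_assoc, two_EV]
    refine gen_congr z z ?_ ?_ ?_
    · have : vM2 ∘ₗ (om + 1 : EV) + vM2 ∘ₗ om + vM2 = vM2 ∘ₗ (om + 1 + om + 1 : EV) := by
        refine LinearMap.ext fun v => ?_
        show vM2 (om v + v) + vM2 (om v) + vM2 v = vM2 (om v + v + om v + v)
        rw [map_add, map_add, map_add, map_add]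
      rw [this, z]
      exact LinearMap.comp_zero _
    · rw [two_lin, zero_add]
    · have : vM3 ∘ₗ (om + 1 : EV) + vM3 ∘ₗ om + vM3 = vM3 ∘ₗ (om + 1 + om + 1 : EV) := by
        refine LinearMap.ext fun v => ?_
        show vM3 (om v + v) + vM3 (om v) + vM3 v = vM3 (om v + v + om v + v)
        rw [map_add, map_add, map_add, map_add]
      rw [this, z]
      exact LinearMap.comp_zero _
  have h2 := LinearMap.congr_fun (congrArg QHom.f0 h1) x
  have h3 : (gen 0 0 0 vM0 0).f0 x = 0 := by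
    obtain ⟨a, y, rfl⟩ := FM.prod_cases x
    obtain ⟨b, c, rfl⟩ := FM.prod_cases y
    have ha : a = 0 := hx
    subst ha
    show x0 0 (x2 0 0 0) vM0 (M0.mk 0 b c) = 0
    rw [x0_mk, x2_zero, map_zero]
    rfl
  exact h2.trans h3

theorem uni0_mem (h : FM.K →ₗ[k] M0) (e : ∀ v, FM.fst (h v) = 0) :
    uni (n0 h) (n0_sq e) ∈ commutator OO := by
  have fs : ∀ x : M0, FM.fst ((lev om om om om).f0 x) = FM.fst x := by
    intro x
    obtain ⟨a, y, rfl⟩ := FM.prod_cases x
    obtain ⟨b, c, rfl⟩ := FM.prod_cases y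
    show FM.fst ((lev om om om om).f0 (M0.mk a b c)) = _
    rw [lev_f0]
    rfl
  have e' : ∀ v, FM.fst (((lev om om om om).f0 ∘ₗ h) v) = 0 := fun v => (fs _).trans (e v)
  have e'' : ∀ v, FM.fst (((lev om om om om).f0 ∘ₗ (lev om om om om).f0 ∘ₗ h) v) = 0 :=
    fun v => (fs _).trans (e' v)
  have a : (levU omU omU omU omU).val * n0 ((lev om om om om).f0 ∘ₗ h) *
      (levU omU omU omU omU)⁻¹.val =
      n0 ((levU omU omU omU omU).val.f0 ∘ₗ ((lev om om om om).f0 ∘ₗ h)) := by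
    rw [levU_inv_val]
    exact (congrArg (· * lev _ _ _ _) (mul_n0 _ _)).trans (n0_mul_lev _ _ _ _ _)
  refine uni_mem (n0 ((lev om om om om).f0 ∘ₗ h)) (n0 h) (n0_sq e') (n0_sq e)
    (levU omU omU omU omU) ?_ ?_
  · rw [a]
    exact n0_sq e'
  · rw [a, n0_add]
    congr 1
    refine LinearMap.ext fun v => ?_
    have h1 := lev_om_rel (h v) (e v)
    show (lev om om om om).f0 ((lev om om om om).f0 (h v)) + (lev om om om om).f0 (h v) = h v
    rw [add_eq_zero_iff_eq_neg] at h1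
    rw [h1, neg_eq_iff_add_eq_zero]
    exact two_vec _

end QO97
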