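import Pool.Agent.Helper43.QK.Inst
import Pool.Agent.Helper46.QF.Coinv

/-!
PROJECT AUT (MP_19fde8_al, S00834), block A: the exact sequence `0 → E → W → W_p → 0`,
`E = R_0 = R_1`, `W = Hom(M, R)`, `W_p = Hom(M, R_p)`.
-/

set_option autoImplicit false

namespace QO97

open QA70 QF46

/-- the projection `R → R_p` (forget vertex `0`) -/
noncomputable def toRp : QHom R Rp where
  f0 := 0
  f1 := LinearMap.id
  f2 := LinearMap.id
  f3 := LinearMap.id
  f4 := LinearMap.id
  hb := by intros; rfl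
  hr := by intros; rfl
  hlam := by intros; rfl
  hal := by intros; rfl
  ha := by intros; rfl
  hc := by intros; rfl
  hu := by intros; rfl

@[simp] theorem toRp_f1 : toRp.f1 = LinearMap.id := rfl
@[simp] theorem toRp_f2 : toRp.f2 = LinearMap.id := rfl
@[simp] theorem toRp_f3 : toRp.f3 = LinearMap.id := rfl
@[simp] theorem toRp_f4 : toRp.f4 = LinearMap.id := rfl

/-- the restriction of endomorphisms of `R` to `R_p` -/
noncomputable def resR : QHom R R →+* QHom Rp Rp where
  toFun b :=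
    { f0 := 0
      f1 := b.f1
      f2 := b.f2
      f3 := b.f3
      f4 := b.f4
      hb := b.hb
      hr := b.hr
      hlam := by intros; rfl
      hal := by intros; rfl
      ha := b.ha
      hc := b.hc
      hu := b.hu }
  map_one' := QHom.ext (FM.to_Z_eq _ _) rfl rfl rfl rfl
  map_mul' _ _ := QHom.ext (FM.to_Z_eq _ _) rfl rfl rfl rfl
  map_zero' := QHom.ext (FM.to_Z_eq _ _) rfl rfl rfl rfl
  map_add' _ _ := QHom.ext (FM.to_Z_eq _ _) rfl rfl rfl rfl

@[simp] theorem resR_f1 (b : QHom R R) : (resR b).f1 = b.f1 := rfl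
@[simp] theorem resR_f2 (b : QHom R R) : (resR b).f2 = b.f2 := rfl
@[simp] theorem resR_f3 (b : QHom R R) : (resR b).f3 = b.f3 := rfl
@[simp] theorem resR_f4 (b : QHom R R) : (resR b).f4 = b.f4 := rfl

theorem toRp_comp (b : QHom R R) : toRp.comp b = (resR b).comp toRp :=
  QHom.ext (FM.to_Z_eq _ _) rfl rfl rfl rfl

/-- `b_0 = b_1` for an endomorphism of `R` (as `lam = 1`) -/
theorem f0_eq_f1 (b : QHom R R) : b.f0 = b.f1 := LinearMap.ext fun x => b.hlam x

theorem resR_injective : Function.Injective resR := by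
  intro b b' h
  have h1 : b.f1 = b'.f1 := congrArg (fun g : QHom Rp Rp => g.f1) h
  have h2 : b.f2 = b'.f2 := congrArg (fun g : QHom Rp Rp => g.f2) h
  have h3 : b.f3 = b'.f3 := congrArg (fun g : QHom Rp Rp => g.f3) h
  have h4 : b.f4 = b'.f4 := congrArg (fun g : QHom Rp Rp => g.f4) h
  refine QHom.ext ?_ h1 h2 h3 h4
  rw [f0_eq_f1, f0_eq_f1, h1]

/-- the inclusion `E → W`: `e ↦ (v_0 ↦ e)` -/
noncomputable def inc : R1 →+ QHom M R where
  toFun e := hm R 0 0 0 0 e
  map_zero' := hm_zero R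
  map_add' x y := by
    have h := hm_add R 0 0 0 0 0 0 0 0 x y
    simp only [add_zero] at h
    exact h

theorem inc_apply (e : R1) : inc e = hm R 0 0 0 0 e := rfl

theorem inc_f0 (e : R1) : (inc e).f0 (vM0 (FM.ofK 1)) = e := by
  rw [inc_apply, hm_f0_v]
  exact one_smul k e

theorem inc_injective : Function.Injective inc := by
  intro x y h
  have h1 : (inc x).f0 (vM0 (FM.ofK 1)) = (inc y).f0 (vM0 (FM.ofK 1)) := by rw [h]
  rwa [inc_f0, inc_f0] at h1

/-- endomorphisms of `R` act on `E` through vertex `1` -/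
theorem comp_inc (b : QHom R R) (x : R1) : b.comp (inc x) = inc (b.f1 x) := by
  rw [inc_apply, comp_hm, inc_apply, f0_eq_f1]
  simp only [LinearMap.comp_zero]

theorem end_smul_inc (b : QHom R R) (x : R1) : b • inc x = inc (b.f1 x) := comp_inc b x

/-- the projection `W → W_p` -/
noncomputable def pi : QHom M R →+ QHom M Rp where
  toFun f := toRp.comp f
  map_zero' := QHom.comp_zero _
  map_add' f g := QHom.comp_add _ f g

theorem pi_apply (f : QHom M R) : pi f = toRp.comp f := rfl

theorem pi_surjective : Function.Surjective pi := by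
  intro g
  refine ⟨hm R g.f1 (g.f2 ∘ₗ vM2) (g.f3 ∘ₗ vM3) g.f4 0, ?_⟩
  rw [pi_apply, comp_hm]
  conv_rhs => rw [eq_hm g]
  rfl

theorem pi_eq_zero (w : QHom M R) : pi w = 0 ↔ ∃ x, inc x = w := by
  constructor
  · intro h
    have h1 : w.f1 = 0 := congrArg QHom.f1 h
    have h2 : w.f2 = 0 := congrArg QHom.f2 h
    have h3 : w.f3 = 0 := congrArg QHom.f3 h
    have h4 : w.f4 = 0 := congrArg QHom.f4 h
    refine ⟨w.f0 (vM0 (FM.ofK 1)), ?_⟩
    conv_rhs => rw [eq_hm w, h1, h2, h3, h4]
    rw [inc_apply, LinearMap.zero_comp, LinearMap.zero_comp]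
  · rintro ⟨x, rfl⟩
    rw [pi_apply, inc_apply, comp_hm]
    simp only [LinearMap.comp_zero]
    exact hm_zero _

theorem pi_inc (x : R1) : pi (inc x) = 0 := (pi_eq_zero _).2 ⟨x, rfl⟩

theorem pi_smul (o : OO) (w : QHom M R) : pi (o • w) = o • pi w := rfl

theorem pi_end_smul (b : QHom R R) (w : QHom M R) : pi (b • w) = resR b • pi w :=
  congrArg (fun g : QHom R Rp => g.comp w) (toRp_comp b)

/-- `E` is the fixed space of `O` on `W` -/
theorem inc_range (w : QHom M R) : (∃ x, inc x = w) ↔ ∀ o : OO, o • w = w := by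
  have h : (∀ o : OO, o • w = w) ↔ ∀ o : MMˣ, w.comp o.val = w := by
    constructor
    · intro h o
      have := h o⁻¹
      rw [aut_smul_def, inv_inv] at this
      exact this
    · intro h o
      exact h o⁻¹
  rw [h, fixed_iff]
  constructor
  · rintro ⟨x, hx⟩
    exact ⟨x, hx.symm⟩
  · rintro ⟨x, hx⟩
    exact ⟨x, hx.symm⟩

end QO97
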