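import Pool.Agent.Helper97.QO.Units
import Pool.Agent.Helper40.QG.Field

/-!
# Project AUT (S00834), block A: `OO` is perfect, has no elements of order `151`, and spans `MM`
-/

set_option autoImplicit false

namespace QO97

open QA70

theorem map_mem_commutator {G H : Type} [Group G] [Group H] (hG : commutator G = ⊤) (f : G →* H)
    (g : G) : f g ∈ commutator H := by
  have h1 : f g ∈ (commutator G).map f := ⟨g, by rw [hG]; exact Subgroup.mem_top _, rfl⟩
  rw [commutator_def, Subgroup.map_commutator] at h1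
  exact Subgroup.commutator_mono le_top le_top h1

/-- `GL(V)` and `GL_4(2)` -/
noncomputable def eGL : Matrix.GeneralLinearGroup (Fin 4) (ZMod 2) ≃* EVˣ :=
  (Matrix.GeneralLinearGroup.toLin :
    Matrix.GeneralLinearGroup (Fin 4) (ZMod 2) ≃*
      LinearMap.GeneralLinearGroup (ZMod 2) (Fin 4 → ZMod 2))

theorem comm_GL4 : commutator (Matrix.GeneralLinearGroup (Fin 4) (ZMod 2)) = ⊤ := by
  rw [← Group.isPerfect_def]
  exact QG40.GL_perfect (by decide)

theorem levU_mul (s1 s2 s3 s4 t1 t2 t3 t4 : EVˣ) :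
    levU (s1 * t1) (s2 * t2) (s3 * t3) (s4 * t4) = levU s1 s2 s3 s4 * levU t1 t2 t3 t4 := by
  apply Units.ext
  exact (lev_mul _ _ _ _ _ _ _ _).symm

theorem levU_one : levU 1 1 1 1 = 1 := Units.ext lev_one

theorem levU_mem (s1 s2 s3 s4 : EVˣ) : levU s1 s2 s3 s4 ∈ commutator OO := by
  have h1 : ∀ s : EVˣ, levU s 1 1 1 ∈ commutator OO := by
    intro s
    let f : EVˣ →* OO := ⟨⟨fun s => levU s 1 1 1, levU_one⟩, fun a b => by
      have := levU_mul a 1 1 1 b 1 1 1
      rwa [mul_one] at this⟩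
    have := map_mem_commutator comm_GL4 (f.comp eGL.toMonoidHom) (eGL.symm s)
    have e : (f.comp eGL.toMonoidHom) (eGL.symm s) = levU s 1 1 1 :=
      congrArg (fun t => levU t 1 1 1) (eGL.apply_symm_apply s)
    rwa [e] at this
  have h2 : ∀ s : EVˣ, levU 1 s 1 1 ∈ commutator OO := by
    intro s
    let f : EVˣ →* OO := ⟨⟨fun s => levU 1 s 1 1, levU_one⟩, fun a b => by
      have := levU_mul 1 a 1 1 1 b 1 1
      rwa [mul_one] at this⟩
    have := map_mem_commutator comm_GL4 (f.comp eGL.toMonoidHom) (eGL.symm s)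
    have e : (f.comp eGL.toMonoidHom) (eGL.symm s) = levU 1 s 1 1 :=
      congrArg (fun t => levU 1 t 1 1) (eGL.apply_symm_apply s)
    rwa [e] at this
  have h3 : ∀ s : EVˣ, levU 1 1 s 1 ∈ commutator OO := by
    intro s
    let f : EVˣ →* OO := ⟨⟨fun s => levU 1 1 s 1, levU_one⟩, fun a b => by
      have := levU_mul 1 1 a 1 1 1 b 1
      rwa [mul_one] at this⟩
    have := map_mem_commutator comm_GL4 (f.comp eGL.toMonoidHom) (eGL.symm s)
    have e : (f.comp eGL.toMonoidHom) (eGL.symm s) = levU 1 1 s 1 :=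
      congrArg (fun t => levU 1 1 t 1) (eGL.apply_symm_apply s)
    rwa [e] at this
  have h4 : ∀ s : EVˣ, levU 1 1 1 s ∈ commutator OO := by
    intro s
    let f : EVˣ →* OO := ⟨⟨fun s => levU 1 1 1 s, levU_one⟩, fun a b => by
      have := levU_mul 1 1 1 a 1 1 1 b
      rwa [mul_one] at this⟩
    have := map_mem_commutator comm_GL4 (f.comp eGL.toMonoidHom) (eGL.symm s)
    have e : (f.comp eGL.toMonoidHom) (eGL.symm s) = levU 1 1 1 s :=
      congrArg (fun t => levU 1 1 1 t) (eGL.apply_symm_apply s)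
    rwa [e] at this
  have e : levU s1 s2 s3 s4 = levU s1 1 1 1 * levU 1 s2 1 1 * levU 1 1 s3 1 * levU 1 1 1 s4 := by
    rw [← levU_mul, ← levU_mul, ← levU_mul]
    simp
  rw [e]
  exact mul_mem (mul_mem (mul_mem (h1 _) (h2 _)) (h3 _)) (h4 _)

/-- `OO` is perfect -/
theorem OO_perfect : commutator OO = ⊤ := by
  rw [eq_top_iff]
  intro γ _
  obtain ⟨h3, e3, h0, e0, h2, e2, h⟩ := normal_form γ
  rw [h]
  exact mul_mem (mul_mem (mul_mem (uni3_mem h3 e3) (uni0_mem h0 e0)) (uni2_mem h2 e2))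
    (levU_mem _ _ _ _)

theorem f0_of_zero (P : MM) (h1 : P.f1 = 0) (h2 : P.f2 = 0) (m : M0) :
    P.f0 m = P.f0 (vM0 (FM.fst m)) := by
  have h : P.f0 = P.f0 ∘ₗ vM0 ∘ₗ FM.fst := by
    refine M0_hom_ext ?_ ?_ ?_
    · intro c; rfl
    · intro v
      have e1 : P.f0 (lamM v) = lamM (P.f1 v) := P.hlam v
      show P.f0 (lamM v) = P.f0 (vM0 0)
      rw [e1, h1, map_zero, map_zero]
      rfl
    · intro m
      have e1 : P.f0 (alM m) = alM (P.f2 m) := P.hal m
      show P.f0 (alM m) = P.f0 (vM0 0)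
      rw [e1, h2, map_zero, map_zero]
      rfl
  exact LinearMap.congr_fun h m

theorem f3_of_zero (P : MM) (h1 : P.f1 = 0) (h4 : P.f4 = 0) (h2 : P.f2 = 0) (m : M3) :
    P.f3 m = P.f3 (vM3 (FM.fst m)) := by
  have h : P.f3 = P.f3 ∘ₗ vM3 ∘ₗ FM.fst := by
    refine M3_hom_ext ?_ ?_ ?_ ?_
    · intro c; rfl
    · intro i j v
      have e1 : P.f3 (aM i j v) = aM i j (P.f1 v) := P.ha i j v
      show P.f3 (aM i j v) = P.f3 (vM3 0)
      rw [e1, h1, map_zero, map_zero]
      exact map_zero _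
    · intro i j m
      have e1 : P.f3 (cM i j m) = cM i j (P.f2 m) := P.hc i j m
      show P.f3 (cM i j m) = P.f3 (vM3 0)
      rw [e1, h2, map_zero, map_zero]
      exact map_zero _
    · intro i v
      have e1 : P.f3 (uM i v) = uM i (P.f4 v) := P.hu i v
      show P.f3 (uM i v) = P.f3 (vM3 0)
      rw [e1, h4, map_zero, map_zero]
      exact map_zero _
  exact LinearMap.congr_fun h m

theorem f2_of_zero (P : MM) (h1 : P.f1 = 0) (h4 : P.f4 = 0) (m : M2) :
    P.f2 m = P.f2 (vM2 (FM.fst m)) := by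
  have h : P.f2 = P.f2 ∘ₗ vM2 ∘ₗ FM.fst := by
    refine M2_hom_ext ?_ ?_ ?_
    · intro c; rfl
    · intro l v
      have e1 : P.f2 (bM l v) = bM l (P.f1 v) := P.hb l v
      show P.f2 (bM l v) = P.f2 (vM2 0)
      rw [e1, h1, map_zero, map_zero]
      exact map_zero _
    · intro v
      have e1 : P.f2 (rM v) = rM (P.f4 v) := P.hr v
      show P.f2 (rM v) = P.f2 (vM2 0)
      rw [e1, h4, map_zero, map_zero]
      exact map_zero _
  exact LinearMap.congr_fun h m

theorem nil_cube (N : MM) (h1 : N.f1 = 0) (h4 : N.f4 = 0) (h2 : l2 N = 0) (h3 : l3 N = 0)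
    (h0 : l0 N = 0) : N * N * N = 0 := by
  have a1 : (N * N).f1 = 0 := by
    rw [QHom.mul_f1, h1]; exact LinearMap.zero_comp _
  have a4 : (N * N).f4 = 0 := by
    rw [QHom.mul_f4, h4]; exact LinearMap.zero_comp _
  have a2 : (N * N).f2 = 0 := by
    refine LinearMap.ext fun m => ?_
    show N.f2 (N.f2 m) = 0
    rw [f2_of_zero N h1 h4 (N.f2 m), fst_f2, h2]
    show N.f2 (vM2 0) = 0
    rw [map_zero, map_zero]
  refine QHom.ext ?_ ?_ ?_ ?_ ?_
  · refine LinearMap.ext fun m => ?_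
    show (N * N).f0 (N.f0 m) = 0
    rw [f0_of_zero (N * N) a1 a2 (N.f0 m), fst_f0, h0]
    show (N * N).f0 (vM0 0) = 0
    rw [map_zero, map_zero]
  · rw [QHom.mul_f1, a1]; exact LinearMap.zero_comp _
  · rw [QHom.mul_f2, a2]; exact LinearMap.zero_comp _
  · refine LinearMap.ext fun m => ?_
    show (N * N).f3 (N.f3 m) = 0
    rw [f3_of_zero (N * N) a1 a4 a2 (N.f3 m), fst_f3, h3]
    show (N * N).f3 (vM3 0) = 0
    rw [map_zero, map_zero]
  · rw [QHom.mul_f4, a4]; exact LinearMap.zero_comp _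

theorem no151_EV (s : EVˣ) (hs : s ^ 151 = 1) : s = 1 := by
  have h1 : (LinearMap.GeneralLinearGroup.generalLinearEquiv k (V : Type) s) ^ 151 = 1 := by
    rw [← map_pow, hs, map_one]
  have hf : Module.finrank (ZMod 2) (V : Type) ≤ 14 := by
    have : Module.finrank (ZMod 2) (V : Type) = 4 := Module.finrank_fin_fun (ZMod 2) (n := 4)
    rw [this]
    decide
  have h2 := QG40.no151' hf _ h1
  rw [← map_one (LinearMap.GeneralLinearGroup.generalLinearEquiv k (V : Type))] at h2
  exact (LinearMap.GeneralLinearGroup.generalLinearEquiv k (V : Type)).injective h2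

theorem pow4 (N : MM) (h : N * N * N = 0) : (1 + N) ^ 4 = 1 := by
  have e : (1 + N) ^ 4 = (1 + N) * (1 + N) * ((1 + N) * (1 + N)) := by
    rw [pow_succ, pow_succ, pow_succ, pow_one, mul_assoc, mul_assoc]
  have e2 : (1 + N) * (1 + N) = 1 + N * N := by
    rw [mul_add, mul_one, add_mul, one_mul, ← add_assoc, add_assoc 1 N N, two_MM, add_zero]
  rw [e, e2, mul_add, mul_one, add_mul, one_mul, ← mul_assoc, h, zero_mul, add_zero, add_assoc,
    two_MM, add_zero]

/-- `151` does not divide the order of `OO` -/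
theorem OO_card : ¬ 151 ∣ Nat.card OO := by
  intro hdvd
  have : Finite MM := inferInstance
  have : Finite OO := inferInstance
  have : Fact (Nat.Prime 151) := ⟨by norm_num⟩
  obtain ⟨γ, hγ⟩ := exists_prime_orderOf_dvd_card' 151 hdvd
  have h151 : γ ^ 151 = 1 := by rw [← hγ]; exact pow_orderOf_eq_one γ
  have hm : ∀ f : MM →* EV, Units.map f γ = 1 := by
    intro f
    apply no151_EV
    rw [← map_pow, h151, map_one]
  have b1 : γ.val.f1 = 1 := congrArg Units.val (hm L1)
  have b4 : γ.val.f4 = 1 := congrArg Units.val (hm L4)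
  have b2 : l2 γ.val = 1 := congrArg Units.val (hm L2)
  have b3 : l3 γ.val = 1 := congrArg Units.val (hm L3)
  have b0 : l0 γ.val = 1 := L0_unit γ
  have hN : (1 + γ.val) * (1 + γ.val) * (1 + γ.val) = 0 := by
    refine nil_cube (1 + γ.val) ?_ ?_ ?_ ?_ ?_
    · rw [QHom.add_f1, b1]
      exact two_lin (A := V) (B := V) LinearMap.id
    · rw [QHom.add_f4, b4]
      exact two_lin (A := V) (B := V) LinearMap.id
    · have : l2 (1 + γ.val) = l2 1 + l2 γ.val := by
        refine LinearMap.ext fun v => ?_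
        show FM.fst ((1 + γ.val).f2 (vM2 v)) = FM.fst ((1 : MM).f2 (vM2 v)) + _
        rw [QHom.add_f2, LinearMap.add_apply, map_add]
        rfl
      rw [this, b2]
      exact two_lin (A := V) (B := V) LinearMap.id
    · have : l3 (1 + γ.val) = l3 1 + l3 γ.val := by
        refine LinearMap.ext fun v => ?_
        show FM.fst ((1 + γ.val).f3 (vM3 v)) = FM.fst ((1 : MM).f3 (vM3 v)) + _
        rw [QHom.add_f3, LinearMap.add_apply, map_add]
        rfl
      rw [this, b3]
      exact two_lin (A := V) (B := V) LinearMap.id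
    · have : l0 (1 + γ.val) = l0 1 + l0 γ.val := by
        refine LinearMap.ext fun v => ?_
        show FM.fst ((1 + γ.val).f0 (vM0 v)) = FM.fst ((1 : MM).f0 (vM0 v)) + _
        rw [QHom.add_f0, LinearMap.add_apply, map_add]
        rfl
      rw [this, b0]
      exact two_lin (A := FM.K) (B := FM.K) LinearMap.id
  have h4 := pow4 (1 + γ.val) hN
  rw [← add_assoc, two_MM, zero_add] at h4
  have h4' : γ ^ 4 = 1 := Units.ext (by rw [Units.val_pow_eq_pow_val, h4]; rfl)
  have h5 : orderOf γ ∣ 4 := orderOf_dvd_of_pow_eq_one h4'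
  rw [hγ] at h5
  exact absurd h5 (by decide)

end QO97
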