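import Pool.Agent.Helper97.QO.Units
import Pool.Agent.Helper40.QG.Trans

/-!
# Project AUT (S00834), block A: the units span the ring `MM`
-/

set_option autoImplicit false

namespace QO97

open QA70 Matrix

theorem closure_mul' {R : Type} [Ring R] {S : Set R} (hS : ∀ a ∈ S, ∀ b ∈ S, a * b ∈ S) {x y : R}
    (hx : x ∈ AddSubgroup.closure S) (hy : y ∈ AddSubgroup.closure S) :
    x * y ∈ AddSubgroup.closure S := by
  induction hx using AddSubgroup.closure_induction with
  | mem a ha =>
    induction hy using AddSubgroup.closure_induction with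
    | mem b hb => exact AddSubgroup.subset_closure (hS a ha b hb)
    | zero => rw [mul_zero]; exact zero_mem _
    | add b c _ _ h1 h2 => rw [mul_add]; exact add_mem h1 h2
    | neg b _ h1 => rw [mul_neg]; exact neg_mem h1
  | zero => rw [zero_mul]; exact zero_mem _
  | add b c _ _ h1 h2 => rw [add_mul]; exact add_mem h1 h2
  | neg b _ h1 => rw [neg_mul]; exact neg_mem h1

/-- the units span the matrix ring -/
theorem span_mat : AddSubgroup.closure
    (Set.range (fun g : Matrix.GeneralLinearGroup (Fin 4) (ZMod 2) => g.val)) = ⊤ := by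
  set S := AddSubgroup.closure
    (Set.range (fun g : Matrix.GeneralLinearGroup (Fin 4) (ZMod 2) => g.val)) with hS
  have hu : ∀ g : Matrix.GeneralLinearGroup (Fin 4) (ZMod 2), g.val ∈ S := fun g =>
    AddSubgroup.subset_closure ⟨g, rfl⟩
  have h1 : (1 : Matrix (Fin 4) (Fin 4) (ZMod 2)) ∈ S := hu 1
  have hij : ∀ i j : Fin 4, i ≠ j → single i j (1 : ZMod 2) ∈ S := by
    intro i j h
    have h2 := hu (QG40.el i j 1)
    rw [QG40.el_val h, transvection] at h2
    have h3 := sub_mem h2 h1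
    rwa [add_sub_cancel_left] at h3
  have hii : ∀ i : Fin 4, single i i (1 : ZMod 2) ∈ S := by
    intro i
    obtain ⟨j, hj⟩ : ∃ j : Fin 4, i ≠ j := by
      by_cases h : i = 0
      · exact ⟨1, by rw [h]; decide⟩
      · exact ⟨0, h⟩
    have h2 := hu (QG40.el i j 1 * QG40.el j i 1)
    rw [Units.val_mul, QG40.el_val hj, QG40.el_val (Ne.symm hj), transvection, transvection,
      mul_add, mul_one, add_mul, one_mul, single_mul_single_same, mul_one] at h2
    have h3 := sub_mem (sub_mem h2 (add_mem h1 (hij i j hj))) (hij j i (Ne.symm hj))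
    have e : 1 + single i j (1 : ZMod 2) + (single j i 1 + single i i 1) -
        (1 + single i j 1) - single j i 1 = single i i (1 : ZMod 2) := by abel
    rwa [e] at h3
  rw [eq_top_iff]
  intro A _
  rw [matrix_eq_sum_single A]
  refine sum_mem fun i _ => sum_mem fun j _ => ?_
  have h01 : A i j = 0 ∨ A i j = 1 := by
    generalize A i j = y
    revert y
    decide
  rcases h01 with h | h
  · rw [h, single_zero]; exact zero_mem _
  · rw [h]
    by_cases hh : i = j
    · subst hh; exact hii i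
    · exact hij i j hh

/-- the units span `End V` -/
theorem span_EV : AddSubgroup.closure (Set.range (fun s : EVˣ => s.val)) = ⊤ := by
  rw [eq_top_iff]
  intro a _
  let f : Matrix (Fin 4) (Fin 4) (ZMod 2) →+ EV :=
    (Matrix.toLin' : Matrix (Fin 4) (Fin 4) (ZMod 2) ≃ₗ[ZMod 2] _).toAddEquiv.toAddMonoidHom
  obtain ⟨A, hA⟩ : ∃ A, f A = a :=
    ⟨(Matrix.toLin' : Matrix (Fin 4) (Fin 4) (ZMod 2) ≃ₗ[ZMod 2] _).symm a,
      (Matrix.toLin' : Matrix (Fin 4) (Fin 4) (ZMod 2) ≃ₗ[ZMod 2] _).apply_symm_apply a⟩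
  have h1 : A ∈ AddSubgroup.closure
      (Set.range (fun g : Matrix.GeneralLinearGroup (Fin 4) (ZMod 2) => g.val)) := by
    rw [span_mat]; exact AddSubgroup.mem_top _
  have h2 : f A ∈ (AddSubgroup.closure
      (Set.range (fun g : Matrix.GeneralLinearGroup (Fin 4) (ZMod 2) => g.val))).map f :=
    ⟨A, h1, rfl⟩
  rw [AddMonoidHom.map_closure, hA] at h2
  refine AddSubgroup.closure_mono ?_ h2
  rintro _ ⟨_, ⟨g, rfl⟩, rfl⟩
  exact ⟨(Matrix.GeneralLinearGroup.toLin :
    Matrix.GeneralLinearGroup (Fin 4) (ZMod 2) ≃*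
      LinearMap.GeneralLinearGroup (ZMod 2) (Fin 4 → ZMod 2)) g, rfl⟩

/-- diagonal elements with the value `c` on `V_0` -/
def dg (a1 a2 a3 a4 : EV) (c : Module.End k (FM.K : Type)) : MM :=
  gen a1 a4 (vM2 ∘ₗ a2) (vM0 ∘ₗ c) (vM3 ∘ₗ a3)

theorem dg_add (a1 a2 a3 a4 b1 b2 b3 b4 : EV) (c d : Module.End k (FM.K : Type)) :
    dg a1 a2 a3 a4 c + dg b1 b2 b3 b4 d = dg (a1 + b1) (a2 + b2) (a3 + b3) (a4 + b4) (c + d) := by
  rw [dg, dg, gen_add]
  refine gen_congr rfl rfl ?_ ?_ ?_
  · exact (LinearMap.comp_add _ _ _).symm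
  · exact (LinearMap.comp_add _ _ _).symm
  · exact (LinearMap.comp_add _ _ _).symm

theorem lev_mul_dg (s1 s2 s3 s4 a1 a2 a3 a4 : EV) (c : Module.End k (FM.K : Type)) :
    lev s1 s2 s3 s4 * dg a1 a2 a3 a4 c = dg (s1 * a1) (s2 * a2) (s3 * a3) (s4 * a4) c := by
  rw [dg, mul_gen]
  refine gen_congr rfl rfl ?_ ?_ ?_
  · refine LinearMap.ext fun v => ?_
    show (lev s1 s2 s3 s4).f2 (M2.mk (a2 v) 0 0) = M2.mk (s2 (a2 v)) 0 0
    rw [lev_f2, map_zero, map_zero]
  · refine LinearMap.ext fun v => ?_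
    show (lev s1 s2 s3 s4).f0 (M0.mk (c v) 0 0) = M0.mk (c v) 0 0
    rw [lev_f0, map_zero, map_zero]
  · refine LinearMap.ext fun v => ?_
    show (lev s1 s2 s3 s4).f3 (M3.mk (a3 v) 0 0 0) = M3.mk (s3 (a3 v)) 0 0 0
    rw [lev_f3, map_zero, map_zero, map_zero]

theorem lev_eq_dg (s1 s2 s3 s4 : EV) : lev s1 s2 s3 s4 = dg s1 s2 s3 s4 1 := rfl

/-- the units of `MM` span `MM` additively -/
theorem OO_span : AddSubgroup.closure (Set.range (fun γ : OO => γ.val)) = ⊤ := by
  set S := AddSubgroup.closure (Set.range (fun γ : OO => γ.val)) with hS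
  have hu : ∀ g : OO, g.val ∈ S := fun g => AddSubgroup.subset_closure ⟨g, rfl⟩
  have hmul : ∀ {x y : MM}, x ∈ S → y ∈ S → x * y ∈ S := by
    intro x y hx hy
    refine closure_mul' ?_ hx hy
    rintro _ ⟨a, rfl⟩ _ ⟨b, rfl⟩
    exact ⟨a * b, rfl⟩
  have h1 : (1 : MM) ∈ S := hu 1
  have hn2 : ∀ h : V →ₗ[k] M2, (∀ v, FM.fst (h v) = 0) → n2 h ∈ S := by
    intro h e
    have := sub_mem (hu (uni (n2 h) (n2_sq e))) h1
    rwa [uni_val, add_sub_cancel_left] at this
  have hn0 : ∀ h : FM.K →ₗ[k] M0, (∀ v, FM.fst (h v) = 0) → n0 h ∈ S := by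
    intro h e
    have := sub_mem (hu (uni (n0 h) (n0_sq e))) h1
    rwa [uni_val, add_sub_cancel_left] at this
  have hn3 : ∀ h : V →ₗ[k] M3, (∀ v, FM.fst (h v) = 0) → n3 h ∈ S := by
    intro h e
    have := sub_mem (hu (uni (n3 h) (n3_sq e))) h1
    rwa [uni_val, add_sub_cancel_left] at this
  have hl : ∀ s1 s2 s3 s4 : EVˣ, lev s1 s2 s3 s4 ∈ S := fun s1 s2 s3 s4 => hu (levU s1 s2 s3 s4)
  have om1 : om + (om + 1) = (1 : EV) := by rw [← add_assoc, two_EV, zero_add]
  have cK : (1 + 1 : Module.End k (FM.K : Type)) = 0 :=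
    two_lin (A := FM.K) (B := FM.K) LinearMap.id
  have omi : (omU⁻¹ : EVˣ).val = om + 1 := rfl
  have d1 : ∀ a : EV, dg a 0 0 0 0 ∈ S := by
    have e : dg 1 0 0 0 0 ∈ S := by
      have := add_mem (hl omU 1 1 1) (hl omU⁻¹ 1 1 1)
      rw [lev_eq_dg, lev_eq_dg, dg_add, cK, omi] at this
      have e' : dg 1 0 0 0 0 = dg (omU.val + (om + 1)) ((1 : EVˣ).val + (1 : EVˣ).val)
          ((1 : EVˣ).val + (1 : EVˣ).val) ((1 : EVˣ).val + (1 : EVˣ).val) 0 := by
        have : ((1 : EVˣ).val + (1 : EVˣ).val) = 0 := two_EV _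
        rw [this]
        exact congrArg (fun x => dg x 0 0 0 0) om1.symm
      rw [e']
      exact this
    intro a
    have ha : a ∈ AddSubgroup.closure (Set.range (fun s : EVˣ => s.val)) := by
      rw [span_EV]; exact AddSubgroup.mem_top _
    induction ha using AddSubgroup.closure_induction with
    | mem _ h =>
      obtain ⟨s, rfl⟩ := h
      have := hmul (hl s 1 1 1) e
      simp only [lev_mul_dg, mul_one, mul_zero] at this
      exact this
    | zero =>
      have := sub_mem e e
      rw [sub_self] at this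
      have z : dg 0 0 0 0 0 = 0 := by
        rw [zero_gen, dg]
        exact gen_congr rfl rfl (LinearMap.comp_zero _) (LinearMap.comp_zero _)
          (LinearMap.comp_zero _)
      rw [z]; exact this
    | add x y _ _ hx hy =>
      have := add_mem hx hy
      rw [dg_add] at this
      simpa using this
    | neg x _ hx =>
      have : -x = x := by rw [neg_eq_iff_add_eq_zero]; exact two_EV x
      rw [this]; exact hx
  have d2 : ∀ a : EV, dg 0 a 0 0 0 ∈ S := by
    have e : dg 0 1 0 0 0 ∈ S := by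
      have := add_mem (hl 1 omU 1 1) (hl 1 omU⁻¹ 1 1)
      rw [lev_eq_dg, lev_eq_dg, dg_add, cK, omi] at this
      have e' : dg 0 1 0 0 0 = dg ((1 : EVˣ).val + (1 : EVˣ).val) (omU.val + (om + 1))
          ((1 : EVˣ).val + (1 : EVˣ).val) ((1 : EVˣ).val + (1 : EVˣ).val) 0 := by
        have : ((1 : EVˣ).val + (1 : EVˣ).val) = 0 := two_EV _
        rw [this]
        exact congrArg (fun x => dg 0 x 0 0 0) om1.symm
      rw [e']
      exact this
    intro a
    have ha : a ∈ AddSubgroup.closure (Set.range (fun s : EVˣ => s.val)) := by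
      rw [span_EV]; exact AddSubgroup.mem_top _
    induction ha using AddSubgroup.closure_induction with
    | mem _ h =>
      obtain ⟨s, rfl⟩ := h
      have := hmul (hl 1 s 1 1) e
      simp only [lev_mul_dg, mul_one, mul_zero] at this
      exact this
    | zero =>
      have := sub_mem e e
      rw [sub_self] at this
      have z : dg 0 0 0 0 0 = 0 := by
        rw [zero_gen, dg]
        exact gen_congr rfl rfl (LinearMap.comp_zero _) (LinearMap.comp_zero _)
          (LinearMap.comp_zero _)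
      rw [z]; exact this
    | add x y _ _ hx hy =>
      have := add_mem hx hy
      rw [dg_add] at this
      simpa using this
    | neg x _ hx =>
      have : -x = x := by rw [neg_eq_iff_add_eq_zero]; exact two_EV x
      rw [this]; exact hx
  have d3 : ∀ a : EV, dg 0 0 a 0 0 ∈ S := by
    have e : dg 0 0 1 0 0 ∈ S := by
      have := add_mem (hl 1 1 omU 1) (hl 1 1 omU⁻¹ 1)
      rw [lev_eq_dg, lev_eq_dg, dg_add, cK, omi] at this
      have e' : dg 0 0 1 0 0 = dg ((1 : EVˣ).val + (1 : EVˣ).val)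
          ((1 : EVˣ).val + (1 : EVˣ).val) (omU.val + (om + 1)) ((1 : EVˣ).val + (1 : EVˣ).val) 0 := by
        have : ((1 : EVˣ).val + (1 : EVˣ).val) = 0 := two_EV _
        rw [this]
        exact congrArg (fun x => dg 0 0 x 0 0) om1.symm
      rw [e']
      exact this
    intro a
    have ha : a ∈ AddSubgroup.closure (Set.range (fun s : EVˣ => s.val)) := by
      rw [span_EV]; exact AddSubgroup.mem_top _
    induction ha using AddSubgroup.closure_induction with
    | mem _ h =>
      obtain ⟨s, rfl⟩ := h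
      have := hmul (hl 1 1 s 1) e
      simp only [lev_mul_dg, mul_one, mul_zero] at this
      exact this
    | zero =>
      have := sub_mem e e
      rw [sub_self] at this
      have z : dg 0 0 0 0 0 = 0 := by
        rw [zero_gen, dg]
        exact gen_congr rfl rfl (LinearMap.comp_zero _) (LinearMap.comp_zero _)
          (LinearMap.comp_zero _)
      rw [z]; exact this
    | add x y _ _ hx hy =>
      have := add_mem hx hy
      rw [dg_add] at this
      simpa using this
    | neg x _ hx =>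
      have : -x = x := by rw [neg_eq_iff_add_eq_zero]; exact two_EV x
      rw [this]; exact hx
  have d4 : ∀ a : EV, dg 0 0 0 a 0 ∈ S := by
    have e : dg 0 0 0 1 0 ∈ S := by
      have := add_mem (hl 1 1 1 omU) (hl 1 1 1 omU⁻¹)
      rw [lev_eq_dg, lev_eq_dg, dg_add, cK, omi] at this
      have e' : dg 0 0 0 1 0 = dg ((1 : EVˣ).val + (1 : EVˣ).val)
          ((1 : EVˣ).val + (1 : EVˣ).val) ((1 : EVˣ).val + (1 : EVˣ).val) (omU.val + (om + 1)) 0 := by
        have : ((1 : EVˣ).val + (1 : EVˣ).val) = 0 := two_EV _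
        rw [this]
        exact congrArg (fun x => dg 0 0 0 x 0) om1.symm
      rw [e']
      exact this
    intro a
    have ha : a ∈ AddSubgroup.closure (Set.range (fun s : EVˣ => s.val)) := by
      rw [span_EV]; exact AddSubgroup.mem_top _
    induction ha using AddSubgroup.closure_induction with
    | mem _ h =>
      obtain ⟨s, rfl⟩ := h
      have := hmul (hl 1 1 1 s) e
      simp only [lev_mul_dg, mul_one, mul_zero] at this
      exact this
    | zero =>
      have := sub_mem e e
      rw [sub_self] at this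
      have z : dg 0 0 0 0 0 = 0 := by
        rw [zero_gen, dg]
        exact gen_congr rfl rfl (LinearMap.comp_zero _) (LinearMap.comp_zero _)
          (LinearMap.comp_zero _)
      rw [z]; exact this
    | add x y _ _ hx hy =>
      have := add_mem hx hy
      rw [dg_add] at this
      simpa using this
    | neg x _ hx =>
      have : -x = x := by rw [neg_eq_iff_add_eq_zero]; exact two_EV x
      rw [this]; exact hx
  have dK : ∀ c : Module.End k (FM.K : Type), dg 0 0 0 0 c ∈ S := by
    intro c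
    rcases endK_cases c with h | h
    · rw [h]; exact d1 0
    · rw [h]
      have := add_mem (add_mem (add_mem (add_mem h1 (d1 1)) (d2 1)) (d3 1)) (d4 1)
      rw [← lev_one, lev_eq_dg, dg_add, dg_add, dg_add, dg_add] at this
      have t : (1 + 1 : EV) = 0 := two_EV 1
      simp only [add_zero, t] at this
      exact this
  rw [eq_top_iff]
  intro γ _
  have key : γ = dg γ.f1 0 0 0 0 + dg 0 (l2 γ) 0 0 0 + dg 0 0 (l3 γ) 0 0 + dg 0 0 0 γ.f4 0 +
      dg 0 0 0 0 (l0 γ) + n2 (γ.f2 ∘ₗ vM2 + vM2 ∘ₗ l2 γ) + n0 (γ.f0 ∘ₗ vM0 + vM0 ∘ₗ l0 γ) +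
      n3 (γ.f3 ∘ₗ vM3 + vM3 ∘ₗ l3 γ) := by
    rw [dg_add, dg_add, dg_add, dg_add, dg, n2, n0, n3, gen_add, gen_add, gen_add]
    conv_lhs => rw [eq_gen γ]
    refine gen_congr ?_ ?_ ?_ ?_ ?_
    · simp
    · simp
    · simp only [add_zero, zero_add]
      rw [add_comm (γ.f2 ∘ₗ vM2), ← add_assoc, two_lin, zero_add]
    · simp only [add_zero, zero_add]
      rw [add_comm (γ.f0 ∘ₗ vM0), ← add_assoc, two_lin, zero_add]
    · simp only [add_zero, zero_add]
      rw [add_comm (γ.f3 ∘ₗ vM3), ← add_assoc, two_lin, zero_add]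
  rw [key]
  refine add_mem (add_mem (add_mem (add_mem (add_mem (add_mem (add_mem (d1 _) (d2 _)) (d3 _))
    (d4 _)) (dK _)) (hn2 _ ?_)) (hn0 _ ?_)) (hn3 _ ?_)
  · intro v
    show FM.fst (γ.f2 (vM2 v) + vM2 (l2 γ v)) = 0
    rw [map_add, fst_vM2]
    exact two_vec _
  · intro v
    show FM.fst (γ.f0 (vM0 v) + vM0 (l0 γ v)) = 0
    rw [map_add, fst_vM0]
    exact two_vec _
  · intro v
    show FM.fst (γ.f3 (vM3 v) + vM3 (l3 γ v)) = 0
    rw [map_add, fst_vM3]
    exact two_vec _

end QO97
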