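import Pool.Agent.Helper46.QF.EndW
import Pool.Agent.Helper97.QO.Span
import Pool.Agent.Helper97.QO.Main
import Pool.Agent.Helper97.QO.Exact
import Pool.Agent.Helper88.QF.Hat

/-!
PROJECT AUT (MP_19fde8_al, S00834), block A: fields of `LFacts` in the form of the generic instances.
-/

set_option autoImplicit false

namespace QO97

open QA70 QF46

theorem coinvW : AddSubgroup.closure {w : QHom M R | ∃ (o : OO) (u : QHom M R), w = o • u - u} = ⊤ := by
  refine QF46.coinv (N := R) (fun x => ⟨x, rfl⟩) _ fun o w => AddSubgroup.subset_closure ⟨o⁻¹, w, ?_⟩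
  rw [aut_smul_def, inv_inv]

/-- additive maps commuting with `O` are given by endomorphisms of the target -/
theorem endG {N : QRep} (f : QHom M N →+ QHom M N)
    (hf : ∀ (o : OO) (w : QHom M N), f (o • w) = o • f w) :
    ∃ a : QHom N N, ∀ w, f w = a • w := by
  refine endW_of OO_span f fun o w => ?_
  have h := hf o⁻¹ w
  rw [aut_smul_def, aut_smul_def, inv_inv] at h
  exact h

theorem faithG {N : QRep} (a : QHom N N) (h : ∀ w : QHom M N, a • w = 0) : a = 0 :=
  faith a h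

theorem eV_ne : eV 0 ≠ 0 := by
  intro h
  have h1 := congrArg (fun v : V => FM.proj 0 v) h
  have h2 : FM.proj 0 (eV 0) = FM.ofK 1 := FM.proj_single_same _ _
  have h3 : (1 : k) = 0 := by
    have h4 : FM.ofK 1 = FM.ofK 0 := by
      rw [← h2]
      exact h1
    exact h4
  exact one_ne_zero h3

instance nontrivR1 : Nontrivial (R1 : Type) := by
  refine ⟨⟨FM.mk 0 (cp1 0 (FM.mk (eV 0) 0)), 0, ?_⟩⟩
  intro h
  have h1 : cp1 0 (FM.mk (eV 0) 0) = 0 := congrArg (FM.snd : R1 →ₗ[k] T1) h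
  have h2 : (FM.mk (eV 0) 0 : Q1) = 0 := FM.single_eq_zero.1 h1
  exact eV_ne (FM.mk_eq_zero.1 h2).1

instance nontrivW : Nontrivial (QHom M R) := inc_injective.nontrivial

instance nontrivQ : Nontrivial (QHom M Rp) := by
  obtain ⟨x, hx⟩ := exists_ne (0 : (R1 : Type))
  refine ⟨⟨hm Rp (tv x) 0 0 0 0, 0, ?_⟩⟩
  intro h
  have h1 : (tv x : V →ₗ[k] R1) = 0 := congrArg (fun g : QHom M Rp => g.f1) h
  apply hx
  rw [← tv_e x, h1]
  rfl

instance nontrivJ : Nontrivial (QHom Tp X) := by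
  obtain ⟨w, hw⟩ := exists_ne (0 : QHom M R)
  refine ⟨⟨QF88.Phi.symm (fun _ => w), 0, ?_⟩⟩
  intro h
  have h1 := congrArg QF88.Phi h
  rw [LinearEquiv.apply_symm_apply, map_zero] at h1
  exact hw (congrFun h1 0)

end QO97
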