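import Pool.Agent.Helper43.QK.Iota
import Pool.Agent.Helper43.QN.Stage
import Pool.Agent.Helper46.QF.FieldsO
import Pool.Agent.Helper97.QO.Fields

/-!
PROJECT AUT (MP_19fde8_al, S00834), block A: `LFacts` from the four facts on the normaliser `NN0`.
-/

set_option autoImplicit false

namespace QO97

open QA70 QF46 QN43

/-- `LFacts` from the facts on the normaliser `NN0` and the map `p : NN0 → O`. -/
theorem lfacts_of (p : NN0 iota R1 →* OO) (hp : Function.Surjective p)
    (hphi : ∀ (n : NN0 iota R1) (j j' : Jt),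
      Rel0 iota R1 n.1 (TrivSqZeroExt.inr j) (TrivSqZeroExt.inr j') →
      ∀ i, QF88.Phi j' i = p n • QF88.Phi j i)
    (hker : ∀ n : NN0 iota R1, p n = 1 → n * n = 1)
    (hperf : ∀ n : NN0 iota R1, ∃ c ∈ commutator (NN0 iota R1), ∃ (m : NN0 iota R1) (a : (A0 Jt)ˣ),
      (∀ x : R1, (m.1.1 : AddMonoid.End R1) x = (a : A0 Jt) • x) ∧
      ((m.1.2 : BBˣ) : BB) = iota a ∧ n = c * m) :
    LFacts (O := OO) (Q := QHom M Rp) iota inc pi QF88.Phi.toAddEquiv p where
  finJ := inferInstance
  finB := inferInstance
  finE := inferInstance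
  finW := inferInstance
  finQ := inferInstance
  finO := inferInstance
  nontrivJ := inferInstance
  nontrivQ := inferInstance
  perfO := OO_perfect
  cop := OO_card
  iotaInj := iota_injective
  incInj := inc_injective
  piSurj := pi_surjective
  incSmul a x := (comp_inc (iotaA a) x).symm
  incRange := inc_range
  piKer := pi_eq_zero
  piO := pi_smul
  piA a w := by
    show toRp.comp ((iotaA a).comp w) = (iota a).comp (toRp.comp w)
    rw [← QHom.comp_assoc, QO97.toRp_comp, ← res_iotaA]
    rfl
  commW _ _ _ := rfl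
  commQ _ _ _ := rfl
  coinv := coinvW
  endW f hf := by
    obtain ⟨b, hb⟩ := endG f hf
    obtain ⟨a, rfl⟩ := iotaA_surjective b
    exact ⟨a, hb⟩
  faithW a h := by
    apply iotaA_injective
    rw [map_zero]
    exact faithG _ h
  faithO := field_faithO
  endQ := endG
  faithQ := faithG
  centQ := field_centQ OO_span
  pSurj := hp
  phiP := hphi
  kerSq := hker
  perfN := hperf

end QO97
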