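import Pool.Agent.Helper70.QA.Data

/-!
# Project AUT (S00834), block A: the ring `MM = End M` in terms of the generators

`gen g1 g4 g2 g0 g3 : MM` is the endomorphism of the free representation `M` with given values on
`V_1, V_4, V_2, V_0, V_3`; `MM_ext`: endomorphisms are determined by these values.
-/

set_option autoImplicit false

namespace QO97

open QA70

theorem M2_hom_ext {B : FM} {f g : M2 →ₗ[k] B} (h2 : ∀ v, f (vM2 v) = g (vM2 v))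
    (hb : ∀ l v, f (bM l v) = g (bM l v)) (hr : ∀ v, f (rM v) = g (rM v)) : f = g := by
  refine FM.hom_prod_ext h2 ?_
  have h : f ∘ₗ FM.inr = g ∘ₗ FM.inr := by
    refine FM.hom_prod_ext ?_ hr
    have h' : f ∘ₗ FM.inr ∘ₗ FM.inl = g ∘ₗ FM.inr ∘ₗ FM.inl := FM.hom_pow_ext hb
    exact fun a => LinearMap.congr_fun h' a
  exact fun b => LinearMap.congr_fun h b

theorem M0_hom_ext {B : FM} {f g : M0 →ₗ[k] B} (h0 : ∀ c, f (vM0 c) = g (vM0 c))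
    (hl : ∀ v, f (lamM v) = g (lamM v)) (ha : ∀ m, f (alM m) = g (alM m)) : f = g := by
  refine FM.hom_prod_ext h0 ?_
  have h : f ∘ₗ FM.inr = g ∘ₗ FM.inr := FM.hom_prod_ext hl ha
  exact fun b => LinearMap.congr_fun h b

theorem M3_hom_ext {B : FM} {f g : M3 →ₗ[k] B} (h3 : ∀ v, f (vM3 v) = g (vM3 v))
    (ha : ∀ i j v, f (aM i j v) = g (aM i j v)) (hc : ∀ i j m, f (cM i j m) = g (cM i j m))
    (hu : ∀ i v, f (uM i v) = g (uM i v)) : f = g := by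
  refine FM.hom_prod_ext h3 ?_
  have h : f ∘ₗ FM.inr = g ∘ₗ FM.inr := by
    refine FM.hom_prod_ext ?_ ?_
    · have h' : f ∘ₗ FM.inr ∘ₗ FM.inl = g ∘ₗ FM.inr ∘ₗ FM.inl :=
        FM.hom_pow_ext fun ij v => ha ij.1 ij.2 v
      exact fun a => LinearMap.congr_fun h' a
    · have h' : f ∘ₗ FM.inr ∘ₗ FM.inr = g ∘ₗ FM.inr ∘ₗ FM.inr := by
        refine FM.hom_prod_ext ?_ ?_
        · have h'' : f ∘ₗ FM.inr ∘ₗ FM.inr ∘ₗ FM.inl = g ∘ₗ FM.inr ∘ₗ FM.inr ∘ₗ FM.inl :=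
            FM.hom_pow_ext fun ij v => hc ij.1 ij.2 v
          exact fun a => LinearMap.congr_fun h'' a
        · have h'' : f ∘ₗ FM.inr ∘ₗ FM.inr ∘ₗ FM.inr = g ∘ₗ FM.inr ∘ₗ FM.inr ∘ₗ FM.inr :=
            FM.hom_pow_ext fun i v => hu i v
          exact fun a => LinearMap.congr_fun h'' a
      exact fun b => LinearMap.congr_fun h' b
  exact fun b => LinearMap.congr_fun h b

/-- endomorphisms of `M` are determined by their values on the generators -/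
theorem MM_ext {γ δ : MM} (h1 : ∀ v, γ.f1 v = δ.f1 v) (h4 : ∀ v, γ.f4 v = δ.f4 v)
    (h2 : ∀ v, γ.f2 (vM2 v) = δ.f2 (vM2 v)) (h0 : ∀ c, γ.f0 (vM0 c) = δ.f0 (vM0 c))
    (h3 : ∀ v, γ.f3 (vM3 v) = δ.f3 (vM3 v)) : γ = δ := by
  have e2 : γ.f2 = δ.f2 := by
    refine M2_hom_ext h2 ?_ ?_
    · intro l v
      exact (γ.hb l v).trans ((congrArg (bM l) (h1 v)).trans (δ.hb l v).symm)
    · intro v
      exact (γ.hr v).trans ((congrArg rM (h4 v)).trans (δ.hr v).symm)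
  have e0 : γ.f0 = δ.f0 := by
    refine M0_hom_ext h0 ?_ ?_
    · intro v
      exact (γ.hlam v).trans ((congrArg lamM (h1 v)).trans (δ.hlam v).symm)
    · intro m
      exact (γ.hal m).trans ((congrArg alM (LinearMap.congr_fun e2 m)).trans (δ.hal m).symm)
  have e3 : γ.f3 = δ.f3 := by
    refine M3_hom_ext h3 ?_ ?_ ?_
    · intro i j v
      exact (γ.ha i j v).trans ((congrArg (aM i j) (h1 v)).trans (δ.ha i j v).symm)
    · intro i j m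
      exact (γ.hc i j m).trans ((congrArg (cM i j) (LinearMap.congr_fun e2 m)).trans
        (δ.hc i j m).symm)
    · intro i v
      exact (γ.hu i v).trans ((congrArg (uM i) (h4 v)).trans (δ.hu i v).symm)
  exact QHom.ext e0 (LinearMap.ext h1) e2 e3 (LinearMap.ext h4)

/-- component at vertex `2` -/
def x2 (g1 g4 : V →ₗ[k] V) (g2 : V →ₗ[k] M2) : M2 →ₗ[k] M2 :=
  g2 ∘ₗ FM.fst + FM.inr ∘ₗ FM.map (FM.pmap g1) g4 ∘ₗ FM.snd

/-- component at vertex `0` -/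
def x0 (g1 : V →ₗ[k] V) (f2 : M2 →ₗ[k] M2) (g0 : FM.K →ₗ[k] M0) : M0 →ₗ[k] M0 :=
  g0 ∘ₗ FM.fst + FM.inr ∘ₗ FM.map g1 f2 ∘ₗ FM.snd

/-- component at vertex `3` -/
def x3 (g1 g4 : V →ₗ[k] V) (f2 : M2 →ₗ[k] M2) (g3 : V →ₗ[k] M3) : M3 →ₗ[k] M3 :=
  g3 ∘ₗ FM.fst +
    FM.inr ∘ₗ FM.map (FM.pmap g1) (FM.map (FM.pmap f2) (FM.pmap g4)) ∘ₗ FM.snd

theorem x2_mk (g1 g4 : V →ₗ[k] V) (g2 : V →ₗ[k] M2) (v : V) (w : FM.pow (Fin 3) V) (t : V) :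
    x2 g1 g4 g2 (M2.mk v w t) = g2 v + M2.mk 0 (FM.pmap g1 w) (g4 t) := rfl

theorem x0_mk (g1 : V →ₗ[k] V) (f2 : M2 →ₗ[k] M2) (g0 : FM.K →ₗ[k] M0) (c : FM.K) (v : V)
    (m : M2) : x0 g1 f2 g0 (M0.mk c v m) = g0 c + M0.mk 0 (g1 v) (f2 m) := rfl

theorem x3_mk (g1 g4 : V →ₗ[k] V) (f2 : M2 →ₗ[k] M2) (g3 : V →ₗ[k] M3) (v : V)
    (x : FM.pow (Fin dd × Fin 2) V) (y : FM.pow (Fin dd × Fin 2) M2) (z : FM.pow (Fin dd) V) :
    x3 g1 g4 f2 g3 (M3.mk v x y z) =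
      g3 v + M3.mk 0 (FM.pmap g1 x) (FM.pmap f2 y) (FM.pmap g4 z) := rfl

/-- the endomorphism of `M` with given values on the generators -/
def gen (g1 g4 : V →ₗ[k] V) (g2 : V →ₗ[k] M2) (g0 : FM.K →ₗ[k] M0) (g3 : V →ₗ[k] M3) : MM where
  f0 := x0 g1 (x2 g1 g4 g2) g0
  f1 := g1
  f2 := x2 g1 g4 g2
  f3 := x3 g1 g4 (x2 g1 g4 g2) g3
  f4 := g4
  hb := by
    intro l x
    show x2 g1 g4 g2 (M2.mk 0 (FM.single l x) 0) = M2.mk 0 (FM.single l (g1 x)) 0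
    rw [x2_mk, map_zero, zero_add, FM.pmap_single, map_zero]
  hr := by
    intro x
    show x2 g1 g4 g2 (M2.mk 0 0 x) = M2.mk 0 0 (g4 x)
    rw [x2_mk, map_zero, zero_add, map_zero]
  hlam := by
    intro x
    show x0 g1 (x2 g1 g4 g2) g0 (M0.mk 0 x 0) = M0.mk 0 (g1 x) 0
    rw [x0_mk, map_zero, zero_add, map_zero]
  hal := by
    intro x
    show x0 g1 (x2 g1 g4 g2) g0 (M0.mk 0 0 x) = M0.mk 0 0 (x2 g1 g4 g2 x)
    rw [x0_mk, map_zero, zero_add, map_zero]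
  ha := by
    intro i j x
    show x3 g1 g4 (x2 g1 g4 g2) g3 (M3.mk 0 (FM.single (i, j) x) 0 0) =
      M3.mk 0 (FM.single (i, j) (g1 x)) 0 0
    rw [x3_mk, map_zero, zero_add, FM.pmap_single, map_zero, map_zero]
  hc := by
    intro i j x
    show x3 g1 g4 (x2 g1 g4 g2) g3 (M3.mk 0 0 (FM.single (i, j) x) 0) =
      M3.mk 0 0 (FM.single (i, j) (x2 g1 g4 g2 x)) 0
    rw [x3_mk, map_zero, zero_add, FM.pmap_single, map_zero, map_zero]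
  hu := by
    intro i x
    show x3 g1 g4 (x2 g1 g4 g2) g3 (M3.mk 0 0 0 (FM.single i x)) =
      M3.mk 0 0 0 (FM.single i (g4 x))
    rw [x3_mk, map_zero, zero_add, FM.pmap_single, map_zero, map_zero]

variable (g1 g4 : V →ₗ[k] V) (g2 : V →ₗ[k] M2) (g0 : FM.K →ₗ[k] M0) (g3 : V →ₗ[k] M3)

@[simp] theorem gen_f1 : (gen g1 g4 g2 g0 g3).f1 = g1 := rfl
@[simp] theorem gen_f4 : (gen g1 g4 g2 g0 g3).f4 = g4 := rfl
theorem gen_f2 : (gen g1 g4 g2 g0 g3).f2 = x2 g1 g4 g2 := rfl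
theorem gen_f0 : (gen g1 g4 g2 g0 g3).f0 = x0 g1 (x2 g1 g4 g2) g0 := rfl
theorem gen_f3 : (gen g1 g4 g2 g0 g3).f3 = x3 g1 g4 (x2 g1 g4 g2) g3 := rfl

@[simp] theorem gen_v2 (v : V) : (gen g1 g4 g2 g0 g3).f2 (vM2 v) = g2 v := by
  show x2 g1 g4 g2 (M2.mk v 0 0) = g2 v
  rw [x2_mk, map_zero, map_zero]
  exact add_zero _

@[simp] theorem gen_v0 (c : FM.K) : (gen g1 g4 g2 g0 g3).f0 (vM0 c) = g0 c := by
  show x0 g1 (x2 g1 g4 g2) g0 (M0.mk c 0 0) = g0 c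
  rw [x0_mk, map_zero, map_zero]
  exact add_zero _

@[simp] theorem gen_v3 (v : V) : (gen g1 g4 g2 g0 g3).f3 (vM3 v) = g3 v := by
  show x3 g1 g4 (x2 g1 g4 g2) g3 (M3.mk v 0 0 0) = g3 v
  rw [x3_mk, map_zero, map_zero, map_zero]
  exact add_zero _

theorem eq_gen (γ : MM) : γ = gen γ.f1 γ.f4 (γ.f2 ∘ₗ vM2) (γ.f0 ∘ₗ vM0) (γ.f3 ∘ₗ vM3) := by
  refine MM_ext ?_ ?_ ?_ ?_ ?_
  · intro v; rfl
  · intro v; rfl
  · intro v; rw [gen_v2]; rfl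
  · intro v; rw [gen_v0]; rfl
  · intro v; rw [gen_v3]; rfl

end QO97
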