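import Pool.Agent.Helper97.QO.Gen

/-!
# Project AUT (S00834), block A: elementary elements of `MM`

`lev s1 s2 s3 s4` (diagonal), `n2 h, n0 h, n3 h` (strictly triangular); the normal form
`γ = (1 + n3 h3) (1 + n0 h0) (1 + n2 h2) (lev s1 s2 s3 s4)` of the units of `MM`.
-/

set_option autoImplicit false

namespace QO97

open QA70

/-- linear endomorphisms of `V = k^4` -/
abbrev EV : Type := Module.End k (V : Type)

theorem two_MM (γ : MM) : γ + γ = 0 := by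
  have h : (2 : k) • γ = γ + γ := two_smul k γ
  rw [← h, show (2 : k) = 0 from rfl, zero_smul]

theorem two_lin {A B : FM} (f : A →ₗ[k] B) : f + f = 0 := by
  have h : (2 : k) • f = f + f := two_smul k f
  rw [← h, show (2 : k) = 0 from rfl, zero_smul]

theorem two_vec {A : FM} (x : A) : x + x = 0 := by
  have h : (2 : k) • x = x + x := two_smul k x
  rw [← h, show (2 : k) = 0 from rfl, zero_smul]

section
variable (g1 g4 : V →ₗ[k] V) (g2 : V →ₗ[k] M2) (g0 : FM.K →ₗ[k] M0) (g3 : V →ₗ[k] M3)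

theorem mul_gen (γ : MM) : γ * gen g1 g4 g2 g0 g3 =
    gen (γ.f1 ∘ₗ g1) (γ.f4 ∘ₗ g4) (γ.f2 ∘ₗ g2) (γ.f0 ∘ₗ g0) (γ.f3 ∘ₗ g3) := by
  refine MM_ext ?_ ?_ ?_ ?_ ?_
  · intro v; rfl
  · intro v; rfl
  · intro v; rw [gen_v2, QHom.mul_f2, LinearMap.comp_apply, gen_v2]; rfl
  · intro v; rw [gen_v0, QHom.mul_f0, LinearMap.comp_apply, gen_v0]; rfl
  · intro v; rw [gen_v3, QHom.mul_f3, LinearMap.comp_apply, gen_v3]; rfl

theorem gen_add (g1' g4' : V →ₗ[k] V) (g2' : V →ₗ[k] M2) (g0' : FM.K →ₗ[k] M0)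
    (g3' : V →ₗ[k] M3) : gen g1 g4 g2 g0 g3 + gen g1' g4' g2' g0' g3' =
      gen (g1 + g1') (g4 + g4') (g2 + g2') (g0 + g0') (g3 + g3') := by
  refine MM_ext ?_ ?_ ?_ ?_ ?_
  · intro v; rfl
  · intro v; rfl
  · intro v
    rw [gen_v2, QHom.add_f2, LinearMap.add_apply, gen_v2, gen_v2]; rfl
  · intro v
    rw [gen_v0, QHom.add_f0, LinearMap.add_apply, gen_v0, gen_v0]; rfl
  · intro v
    rw [gen_v3, QHom.add_f3, LinearMap.add_apply, gen_v3, gen_v3]; rfl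

end

theorem one_gen : (1 : MM) = gen 1 1 vM2 vM0 vM3 := by
  refine MM_ext ?_ ?_ ?_ ?_ ?_
  · intro v; rfl
  · intro v; rfl
  · intro v; rw [gen_v2]; rfl
  · intro v; rw [gen_v0]; rfl
  · intro v; rw [gen_v3]; rfl

theorem zero_gen : (0 : MM) = gen 0 0 0 0 0 := by
  refine MM_ext ?_ ?_ ?_ ?_ ?_
  · intro v; rfl
  · intro v; rfl
  · intro v; rw [gen_v2]; rfl
  · intro v; rw [gen_v0]; rfl
  · intro v; rw [gen_v3]; rfl

theorem gen_congr {a1 b1 a4 b4 : V →ₗ[k] V} {a2 b2 : V →ₗ[k] M2} {a0 b0 : FM.K →ₗ[k] M0}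
    {a3 b3 : V →ₗ[k] M3} (h1 : a1 = b1) (h4 : a4 = b4) (h2 : a2 = b2) (h0 : a0 = b0)
    (h3 : a3 = b3) : gen a1 a4 a2 a0 a3 = gen b1 b4 b2 b0 b3 := by
  rw [h1, h4, h2, h0, h3]

/-- the diagonal elements -/
def lev (s1 s2 s3 s4 : EV) : MM := gen s1 s4 (vM2 ∘ₗ s2) vM0 (vM3 ∘ₗ s3)

theorem lev_one : lev 1 1 1 1 = 1 := by
  rw [one_gen, lev]
  exact gen_congr rfl rfl rfl rfl rfl

theorem lev_f2 (s1 s2 s3 s4 : EV) (v : V) (w : FM.pow (Fin 3) V) (t : V) :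
    (lev s1 s2 s3 s4).f2 (M2.mk v w t) = M2.mk (s2 v) (FM.pmap s1 w) (s4 t) := by
  rw [lev, gen_f2, x2_mk]
  show FM.mk (s2 v + 0) (FM.mk (0 + FM.pmap s1 w) (0 + s4 t)) = _
  rw [add_zero, zero_add, zero_add]

theorem lev_f3 (s1 s2 s3 s4 : EV) (v : V) (x : FM.pow (Fin dd × Fin 2) V)
    (y : FM.pow (Fin dd × Fin 2) M2) (z : FM.pow (Fin dd) V) :
    (lev s1 s2 s3 s4).f3 (M3.mk v x y z) =
      M3.mk (s3 v) (FM.pmap s1 x) (FM.pmap (lev s1 s2 s3 s4).f2 y) (FM.pmap s4 z) := by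
  rw [lev, gen_f3, x3_mk]
  show FM.mk (s3 v + 0) (FM.mk (0 + FM.pmap s1 x) (FM.mk (0 + _) (0 + FM.pmap s4 z))) = _
  rw [add_zero, zero_add, zero_add, zero_add]
  rfl

theorem lev_f0 (s1 s2 s3 s4 : EV) (c : FM.K) (v : V) (m : M2) :
    (lev s1 s2 s3 s4).f0 (M0.mk c v m) = M0.mk c (s1 v) ((lev s1 s2 s3 s4).f2 m) := by
  rw [lev, gen_f0, x0_mk]
  show FM.mk (c + 0) (FM.mk (0 + s1 v) (0 + _)) = _
  rw [add_zero, zero_add, zero_add]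
  rfl

theorem lev_mul (s1 s2 s3 s4 t1 t2 t3 t4 : EV) :
    lev s1 s2 s3 s4 * lev t1 t2 t3 t4 = lev (s1 * t1) (s2 * t2) (s3 * t3) (s4 * t4) := by
  conv_lhs => rw [lev.eq_1 t1 t2 t3 t4]
  rw [mul_gen]
  refine gen_congr rfl rfl ?_ ?_ ?_
  · refine LinearMap.ext fun v => ?_
    show (lev s1 s2 s3 s4).f2 (M2.mk (t2 v) 0 0) = M2.mk (s2 (t2 v)) 0 0
    rw [lev_f2, map_zero, map_zero]
  · refine LinearMap.ext fun c => ?_
    show (lev s1 s2 s3 s4).f0 (M0.mk c 0 0) = M0.mk c 0 0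
    rw [lev_f0, map_zero, map_zero]
  · refine LinearMap.ext fun v => ?_
    show (lev s1 s2 s3 s4).f3 (M3.mk (t3 v) 0 0 0) = M3.mk (s3 (t3 v)) 0 0 0
    rw [lev_f3, map_zero, map_zero, map_zero]

/-- `lev` as a homomorphism -/
def levHom : EV × EV × EV × EV →* MM where
  toFun s := lev s.1 s.2.1 s.2.2.1 s.2.2.2
  map_one' := lev_one
  map_mul' s t := (lev_mul _ _ _ _ _ _ _ _).symm

/-- strictly triangular elements -/
def n2 (h : V →ₗ[k] M2) : MM := gen 0 0 h 0 0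
/-- strictly triangular elements -/
def n0 (h : FM.K →ₗ[k] M0) : MM := gen 0 0 0 h 0
/-- strictly triangular elements -/
def n3 (h : V →ₗ[k] M3) : MM := gen 0 0 0 0 h

theorem n2_f2 (h : V →ₗ[k] M2) (m : M2) : (n2 h).f2 m = h (FM.fst m) := by
  obtain ⟨v, x, rfl⟩ := FM.prod_cases m
  obtain ⟨w, t, rfl⟩ := FM.prod_cases x
  show x2 0 0 h (M2.mk v w t) = h v
  rw [x2_mk]
  exact add_zero _

theorem n3_f3 (h : V →ₗ[k] M3) (m : M3) : (n3 h).f3 m = h (FM.fst m) := by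
  obtain ⟨v, x, rfl⟩ := FM.prod_cases m
  obtain ⟨w, y, rfl⟩ := FM.prod_cases x
  obtain ⟨s, t, rfl⟩ := FM.prod_cases y
  show x3 0 0 (x2 0 0 0) h (M3.mk v w s t) = h v
  rw [x3_mk]
  have e : (x2 0 0 0 : M2 →ₗ[k] M2) = 0 := by
    refine M2_hom_ext ?_ ?_ ?_ <;> intros <;> rfl
  rw [e]
  exact add_zero _

theorem n0_f0 (h : FM.K →ₗ[k] M0) (m : M0) : (n0 h).f0 m = h (FM.fst m) := by
  obtain ⟨v, x, rfl⟩ := FM.prod_cases m
  obtain ⟨w, t, rfl⟩ := FM.prod_cases x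
  show x0 0 (x2 0 0 0) h (M0.mk v w t) = h v
  rw [x0_mk]
  have e : (x2 0 0 0 : M2 →ₗ[k] M2) = 0 := by
    refine M2_hom_ext ?_ ?_ ?_ <;> intros <;> rfl
  rw [e]
  exact add_zero _

end QO97
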