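import Pool.Agent.Helper97.QO.Perf
import Pool.Agent.Helper40.QG.Trans

/-!
# Project AUT (S00834), block A: normal form of the units of `MM`; `OO` is perfect
-/

set_option autoImplicit false

namespace QO97

open QA70
open scoped commutatorElement

theorem unit_mul {γ : OO} : γ.val * γ⁻¹.val = 1 := Units.mul_inv γ

/-- the diagonal parts of an endomorphism -/
def l2 (γ : MM) : EV := FM.fst ∘ₗ γ.f2 ∘ₗ vM2
/-- the diagonal parts of an endomorphism -/
def l3 (γ : MM) : EV := FM.fst ∘ₗ γ.f3 ∘ₗ vM3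
/-- the diagonal parts of an endomorphism -/
def l0 (γ : MM) : Module.End k (FM.K : Type) := FM.fst ∘ₗ γ.f0 ∘ₗ vM0

theorem fst_f2 (γ : MM) (m : M2) : FM.fst (γ.f2 m) = l2 γ (FM.fst m) := by
  have h : FM.fst ∘ₗ γ.f2 = l2 γ ∘ₗ FM.fst := by
    refine M2_hom_ext ?_ ?_ ?_
    · intro v; rfl
    · intro l v
      show FM.fst (γ.f2 (bM l v)) = l2 γ (FM.fst (bM l v))
      have e1 : γ.f2 (bM l v) = bM l (γ.f1 v) := γ.hb l v
      have e2 : ∀ w, FM.fst (bM l w) = 0 := fun w => rfl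
      rw [e1, e2, e2, map_zero]
    · intro v
      show FM.fst (γ.f2 (rM v)) = l2 γ (FM.fst (rM v))
      have e1 : γ.f2 (rM v) = rM (γ.f4 v) := γ.hr v
      have e2 : ∀ w, FM.fst (rM w) = 0 := fun w => rfl
      rw [e1, e2, e2, map_zero]
  exact LinearMap.congr_fun h m

theorem fst_f0 (γ : MM) (m : M0) : FM.fst (γ.f0 m) = l0 γ (FM.fst m) := by
  have h : FM.fst ∘ₗ γ.f0 = l0 γ ∘ₗ FM.fst := by
    refine M0_hom_ext ?_ ?_ ?_
    · intro v; rfl
    · intro v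
      show FM.fst (γ.f0 (lamM v)) = l0 γ (FM.fst (lamM v))
      have e1 : γ.f0 (lamM v) = lamM (γ.f1 v) := γ.hlam v
      have e2 : ∀ w, FM.fst (lamM w) = 0 := fun w => rfl
      rw [e1, e2, e2, map_zero]
    · intro v
      show FM.fst (γ.f0 (alM v)) = l0 γ (FM.fst (alM v))
      have e1 : γ.f0 (alM v) = alM (γ.f2 v) := γ.hal v
      have e2 : ∀ w, FM.fst (alM w) = 0 := fun w => rfl
      rw [e1, e2, e2, map_zero]
  exact LinearMap.congr_fun h m

theorem fst_f3 (γ : MM) (m : M3) : FM.fst (γ.f3 m) = l3 γ (FM.fst m) := by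
  have h : FM.fst ∘ₗ γ.f3 = l3 γ ∘ₗ FM.fst := by
    refine M3_hom_ext ?_ ?_ ?_ ?_
    · intro v; rfl
    · intro i j v
      show FM.fst (γ.f3 (aM i j v)) = l3 γ (FM.fst (aM i j v))
      have e1 : γ.f3 (aM i j v) = aM i j (γ.f1 v) := γ.ha i j v
      have e2 : ∀ w, FM.fst (aM i j w) = 0 := fun w => rfl
      rw [e1, e2, e2, map_zero]
    · intro i j v
      show FM.fst (γ.f3 (cM i j v)) = l3 γ (FM.fst (cM i j v))
      have e1 : γ.f3 (cM i j v) = cM i j (γ.f2 v) := γ.hc i j v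
      have e2 : ∀ w, FM.fst (cM i j w) = 0 := fun w => rfl
      rw [e1, e2, e2, map_zero]
    · intro i v
      show FM.fst (γ.f3 (uM i v)) = l3 γ (FM.fst (uM i v))
      have e1 : γ.f3 (uM i v) = uM i (γ.f4 v) := γ.hu i v
      have e2 : ∀ w, FM.fst (uM i w) = 0 := fun w => rfl
      rw [e1, e2, e2, map_zero]
  exact LinearMap.congr_fun h m

theorem l2_mul (γ δ : MM) : l2 (γ * δ) = l2 γ * l2 δ := by
  refine LinearMap.ext fun v => ?_
  show FM.fst (γ.f2 (δ.f2 (vM2 v))) = _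
  rw [fst_f2]; rfl

theorem l3_mul (γ δ : MM) : l3 (γ * δ) = l3 γ * l3 δ := by
  refine LinearMap.ext fun v => ?_
  show FM.fst (γ.f3 (δ.f3 (vM3 v))) = _
  rw [fst_f3]; rfl

theorem l0_mul (γ δ : MM) : l0 (γ * δ) = l0 γ * l0 δ := by
  refine LinearMap.ext fun v => ?_
  show FM.fst (γ.f0 (δ.f0 (vM0 v))) = _
  rw [fst_f0]; rfl

/-- the diagonal parts as homomorphisms -/
def L2 : MM →* EV := ⟨⟨l2, rfl⟩, l2_mul⟩
/-- the diagonal parts as homomorphisms -/
def L3 : MM →* EV := ⟨⟨l3, rfl⟩, l3_mul⟩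
/-- the diagonal parts as homomorphisms -/
def L0 : MM →* Module.End k (FM.K : Type) := ⟨⟨l0, rfl⟩, l0_mul⟩
/-- the diagonal parts as homomorphisms -/
def L1 : MM →* EV := ⟨⟨fun γ => γ.f1, rfl⟩, fun _ _ => rfl⟩
/-- the diagonal parts as homomorphisms -/
def L4 : MM →* EV := ⟨⟨fun γ => γ.f4, rfl⟩, fun _ _ => rfl⟩

theorem endK_cases (c : Module.End k (FM.K : Type)) : c = 0 ∨ c = 1 := by
  have h1 : ∀ y : ZMod 2, y = 0 ∨ y = 1 := by decide
  have h' : ∀ x : FM.K, x = FM.ofK (FM.toK x • (1 : k)) := by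
    intro x
    rw [smul_eq_mul, mul_one]
    rfl
  have h : ∀ x : FM.K, c x = c (FM.ofK (FM.toK x • (1 : k))) := fun x => congrArg c (h' x)
  rcases h1 (FM.toK (c (FM.ofK 1))) with h2 | h2
  · left
    refine LinearMap.ext fun x => ?_
    rw [h x, map_smul, map_smul]
    show FM.toK x • c (FM.ofK 1) = 0
    have : c (FM.ofK 1) = 0 := h2
    rw [this, smul_zero]
  · right
    refine LinearMap.ext fun x => ?_
    rw [h x, map_smul, map_smul]
    show FM.toK x • c (FM.ofK 1) = x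
    have h3 : c (FM.ofK 1) = FM.ofK 1 := h2
    rw [h3, ← map_smul]
    exact (h' x).symm

theorem L0_unit (γ : OO) : l0 γ.val = 1 := by
  rcases endK_cases (l0 γ.val) with h | h
  · exfalso
    have h1 : l0 γ.val * l0 γ⁻¹.val = 1 := by
      rw [← l0_mul, unit_mul]
      rfl
    rw [h, zero_mul] at h1
    have h2 := LinearMap.congr_fun h1 (FM.ofK 1)
    have h3 : (0 : ZMod 2) = 1 := h2
    exact zero_ne_one h3
  · exact h

theorem fst_vM2 (v : V) : FM.fst (vM2 v) = v := rfl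
theorem fst_vM3 (v : V) : FM.fst (vM3 v) = v := rfl
theorem fst_vM0 (v : FM.K) : FM.fst (vM0 v) = v := rfl

/-- the normal form of the units -/
theorem normal_form (γ : OO) : ∃ (h3 : V →ₗ[k] M3) (e3 : ∀ v, FM.fst (h3 v) = 0)
    (h0 : FM.K →ₗ[k] M0) (e0 : ∀ v, FM.fst (h0 v) = 0)
    (h2 : V →ₗ[k] M2) (e2 : ∀ v, FM.fst (h2 v) = 0),
    γ = uni (n3 h3) (n3_sq e3) * uni (n0 h0) (n0_sq e0) * uni (n2 h2) (n2_sq e2) *
      levU (Units.map L1 γ) (Units.map L2 γ) (Units.map L3 γ) (Units.map L4 γ) := by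
  set s1 := Units.map L1 γ with hs1
  set s2 := Units.map L2 γ with hs2
  set s3 := Units.map L3 γ with hs3
  set s4 := Units.map L4 γ with hs4
  set δ : OO := γ * (levU s1 s2 s3 s4)⁻¹ with hδ
  have hδv : δ.val = gen 1 1 (γ.val.f2 ∘ₗ vM2 ∘ₗ s2⁻¹.val) (γ.val.f0 ∘ₗ vM0)
      (γ.val.f3 ∘ₗ vM3 ∘ₗ s3⁻¹.val) := by
    rw [hδ, Units.val_mul, levU_inv_val, lev, mul_gen]
    refine gen_congr ?_ ?_ rfl rfl rfl
    · exact Units.mul_inv s1
    · exact Units.mul_inv s4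
  have f2e : ∀ v, FM.fst (γ.val.f2 (vM2 (s2⁻¹.val v))) = v := by
    intro v
    rw [fst_f2, fst_vM2]
    exact LinearMap.congr_fun (Units.mul_inv s2) v
  have f3e : ∀ v, FM.fst (γ.val.f3 (vM3 (s3⁻¹.val v))) = v := by
    intro v
    rw [fst_f3, fst_vM3]
    exact LinearMap.congr_fun (Units.mul_inv s3) v
  have f0e : ∀ v, FM.fst (γ.val.f0 (vM0 v)) = v := by
    intro v
    rw [fst_f0, fst_vM0, L0_unit]
    rfl
  refine ⟨γ.val.f3 ∘ₗ vM3 ∘ₗ s3⁻¹.val + vM3, ?_, γ.val.f0 ∘ₗ vM0 + vM0, ?_,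
    γ.val.f2 ∘ₗ vM2 ∘ₗ s2⁻¹.val + vM2, ?_, ?_⟩
  · intro v
    rw [LinearMap.add_apply, map_add, fst_vM3]
    show FM.fst (γ.val.f3 (vM3 (s3⁻¹.val v))) + v = 0
    rw [f3e, two_vec]
  · intro v
    rw [LinearMap.add_apply, map_add, fst_vM0]
    show FM.fst (γ.val.f0 (vM0 v)) + v = 0
    rw [f0e, two_vec]
  · intro v
    rw [LinearMap.add_apply, map_add, fst_vM2]
    show FM.fst (γ.val.f2 (vM2 (s2⁻¹.val v))) + v = 0
    rw [f2e, two_vec]
  · rw [← mul_inv_eq_iff_eq_mul, ← hδ]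
    apply Units.ext
    rw [hδv, Units.val_mul, Units.val_mul, uni_val, uni_val, uni_val]
    have c2 : ∀ g : V →ₗ[k] M2, 1 + n2 (g + vM2) = gen 1 1 g vM0 vM3 := by
      intro g
      rw [one_gen, n2, gen_add]
      refine gen_congr (add_zero _) (add_zero _) ?_ (add_zero _) (add_zero _)
      rw [add_comm g, ← add_assoc, two_lin, zero_add]
    have c0 : ∀ g : FM.K →ₗ[k] M0, 1 + n0 (g + vM0) = gen 1 1 vM2 g vM3 := by
      intro g
      rw [one_gen, n0, gen_add]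
      refine gen_congr (add_zero _) (add_zero _) (add_zero _) ?_ (add_zero _)
      rw [add_comm g, ← add_assoc, two_lin, zero_add]
    have c3 : ∀ g : V →ₗ[k] M3, 1 + n3 (g + vM3) = gen 1 1 vM2 vM0 g := by
      intro g
      rw [one_gen, n3, gen_add]
      refine gen_congr (add_zero _) (add_zero _) (add_zero _) (add_zero _) ?_
      rw [add_comm g, ← add_assoc, two_lin, zero_add]
    rw [c2, c0, c3, mul_assoc, mul_gen, mul_gen]
    have i2 : x2 1 1 vM2 = LinearMap.id := by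
      have := congrArg QHom.f2 one_gen
      exact this.symm
    have i0' : x0 1 (x2 1 1 vM2) vM0 = LinearMap.id := by
      have := congrArg QHom.f0 one_gen
      exact this.symm
    have i3 : x3 1 1 (x2 1 1 vM2) vM3 = LinearMap.id := by
      have := congrArg QHom.f3 one_gen
      exact this.symm
    generalize γ.val.f2 ∘ₗ vM2 ∘ₗ s2⁻¹.val = G2
    generalize γ.val.f0 ∘ₗ vM0 = G0
    generalize γ.val.f3 ∘ₗ vM3 ∘ₗ s3⁻¹.val = G3
    refine gen_congr rfl rfl ?_ ?_ ?_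
    · show _ = x2 1 1 vM2 ∘ₗ x2 1 1 vM2 ∘ₗ _
      rw [i2]; rfl
    · refine LinearMap.ext fun c => ?_
      have e1 : (gen 1 1 vM2 G0 vM3).f0 (vM0 c) = G0 c := gen_v0 1 1 vM2 G0 vM3 c
      have e2 : ∀ x, (gen 1 1 vM2 vM0 G3).f0 x = x := by
        intro x
        rw [gen_f0, i0']
        rfl
      exact ((e2 _).trans e1).symm
    · refine LinearMap.ext fun c => ?_
      have e1 : (gen 1 1 vM2 G0 vM3).f3 (vM3 c) = vM3 c := gen_v3 1 1 vM2 G0 vM3 c
      have e2 : (gen 1 1 vM2 vM0 G3).f3 (vM3 c) = G3 c := gen_v3 1 1 vM2 vM0 G3 c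
      exact ((congrArg (gen 1 1 vM2 vM0 G3).f3 e1).trans e2).symm

end QO97
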